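import Mathlib

/-!
# The estimate for the weighted average
-/

set_option autoImplicit false
set_option linter.all false

namespace Pool.Agent.L0h11.NA

open Finset

lemma pow_expand (x : ℝ) (r : ℕ) :
    |(1 + x) ^ r - 1 - r * x| ≤ (r : ℝ) ^ 2 * (1 + |x|) ^ r * x ^ 2 := by
  induction r with
  | zero => simp
  | succ r ih =>
    have e : (1 + x) ^ (r + 1) - 1 - ((r + 1 : ℕ) : ℝ) * x =
        (1 + x) * ((1 + x) ^ r - 1 - r * x) + r * x ^ 2 := by
      push_cast
      ring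
    have h0 : 0 ≤ |x| := abs_nonneg x
    have hx2 : 0 ≤ x ^ 2 := sq_nonneg x
    have h1 : |1 + x| ≤ 1 + |x| := (abs_add_le _ _).trans (by rw [abs_one])
    have h2 : (1 : ℝ) ≤ (1 + |x|) ^ (r + 1) := one_le_pow₀ (by linarith)
    have hr : (0 : ℝ) ≤ r := Nat.cast_nonneg r
    rw [e]
    calc _ ≤ |1 + x| * |(1 + x) ^ r - 1 - r * x| + |(r : ℝ) * x ^ 2| := by
          refine (abs_add_le _ _).trans ?_
          rw [abs_mul]
      _ ≤ (1 + |x|) * ((r : ℝ) ^ 2 * (1 + |x|) ^ r * x ^ 2) + r * x ^ 2 := by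
          refine add_le_add (mul_le_mul h1 ih (abs_nonneg _) (by linarith)) (le_of_eq ?_)
          rw [abs_of_nonneg (mul_nonneg hr hx2)]
      _ = ((r : ℝ) ^ 2 * (1 + |x|) ^ (r + 1) + r) * x ^ 2 := by ring
      _ ≤ ((r + 1 : ℕ) : ℝ) ^ 2 * (1 + |x|) ^ (r + 1) * x ^ 2 := by
          refine mul_le_mul_of_nonneg_right ?_ hx2
          push_cast
          nlinarith [mul_le_mul_of_nonneg_left h2 hr, mul_nonneg hr (by linarith : (0 : ℝ) ≤ (1 + |x|) ^ (r + 1))]

lemma young {y l : ℝ} (hy : 0 ≤ y) (hl : 0 < l) : y ≤ l + y ^ 4 / l ^ 3 := by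
  rcases le_total y l with h | h
  · have : 0 ≤ y ^ 4 / l ^ 3 := by positivity
    linarith
  · have h1 : l ^ 3 ≤ y ^ 3 := pow_le_pow_left₀ hl.le h 3
    have h2 : y ≤ y ^ 4 / l ^ 3 := by
      rw [le_div_iff₀ (by positivity)]
      calc y * l ^ 3 ≤ y * y ^ 3 := mul_le_mul_of_nonneg_left h1 hy
        _ = y ^ 4 := by ring
    linarith

lemma young2 {y l : ℝ} (hl : 0 < l) : y ^ 2 ≤ l + y ^ 4 / l := by
  rcases le_total (y ^ 2) l with h | h
  · have : 0 ≤ y ^ 4 / l := by positivity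
    linarith
  · have h2 : y ^ 2 ≤ y ^ 4 / l := by
      rw [le_div_iff₀ hl]
      calc y ^ 2 * l ≤ y ^ 2 * y ^ 2 := mul_le_mul_of_nonneg_left h (sq_nonneg y)
        _ = y ^ 4 := by ring
    linarith

/-- the constant -/
noncomputable def KC (r : ℕ) (c K G D : ℝ) : ℝ :=
  (r : ℝ) ^ 2 * (2 + G) ^ r * (1 + G) ^ 2 * G + 2 * r * c + (1 + r) * (D + K) + r * (D + K)

open Classical in
/-- **The weighted average of the traces.** -/
theorem core {V : Type} [Fintype V] (τ : V → ℝ) (P : V → Prop) (r : ℕ) {l a s c K G D : ℝ}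
    (hl : 1 ≤ l) (hc : 0 ≤ c) (hK : 0 ≤ K) (hG : 0 ≤ G) (hD : 0 ≤ D)
    (h1 : ∑ t, τ t = Fintype.card V * a) (h2 : ∑ t, τ t ^ 2 = Fintype.card V * (a ^ 2 + s))
    (h4 : ∑ t, τ t ^ 4 ≤ Fintype.card V * (K * (l ^ 4) ^ 2)) (hs : |s - l ^ 4| ≤ c * l ^ 2)
    (ha : |a| ≤ c * l ^ 2) (hg : ∀ t, P t → |τ t| ≤ G * l ^ 2)
    (hb : ((univ.filter fun t => ¬ P t).card : ℝ) * l ^ 4 ≤ D * Fintype.card V) :
    |∑ t with P t, (1 + (1 - τ t) / l ^ 4) ^ r * τ t -
      Fintype.card V * (a - r * (a ^ 2 / l ^ 4 + 1))| * l ≤ KC r c K G D * Fintype.card V := by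
  have hl0 : 0 < l := by linarith
  have hl2 : (1 : ℝ) ≤ l ^ 2 := one_le_pow₀ hl
  have hll : l ≤ l ^ 2 := by nlinarith
  set v : ℝ := (Fintype.card V : ℝ) with hv
  have hv0 : 0 ≤ v := Nat.cast_nonneg _
  have hr : (0 : ℝ) ≤ r := Nat.cast_nonneg r
  set E : V → ℝ := fun t => ((1 + (1 - τ t) / l ^ 4) ^ r - 1 - r * ((1 - τ t) / l ^ 4)) * τ t with hE
  set L : V → ℝ := fun t => τ t + r * (τ t - τ t ^ 2) / l ^ 4 with hL
  have e0 : ∀ t, (1 + (1 - τ t) / l ^ 4) ^ r * τ t = E t + L t := by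
    intro t
    rw [hE, hL]
    field_simp
    ring
  have e1 : ∑ t, L t = v * (a + r * (a - a ^ 2 - s) / l ^ 4) := by
    have : ∀ t, L t = τ t + (r / l ^ 4 * τ t - r / l ^ 4 * τ t ^ 2) := by
      intro t
      rw [hL]
      ring
    rw [sum_congr rfl fun t _ => this t, sum_add_distrib, sum_sub_distrib, ← mul_sum, ← mul_sum, h1, h2]
    ring
  have e2 : ∑ t with P t, (1 + (1 - τ t) / l ^ 4) ^ r * τ t - v * (a - r * (a ^ 2 / l ^ 4 + 1)) =
      ∑ t with P t, E t + v * (r * (a - (s - l ^ 4)) / l ^ 4) - ∑ t with ¬ P t, L t := by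
    rw [sum_congr rfl fun t _ => e0 t, sum_add_distrib]
    have h5 : ∑ t with P t, L t = ∑ t, L t - ∑ t with ¬ P t, L t := by
      rw [← sum_filter_add_sum_filter_not univ P L]
      ring
    rw [h5, e1]
    field_simp
    ring
  -- the first term
  have b1 : |∑ t with P t, E t| * l ≤ (r : ℝ) ^ 2 * (2 + G) ^ r * (1 + G) ^ 2 * G * v := by
    have h5 : ∀ t ∈ univ.filter P, |E t| ≤ (r : ℝ) ^ 2 * (2 + G) ^ r * (1 + G) ^ 2 * G / l ^ 2 := by
      intro t ht
      have hg' := hg t (mem_filter.1 ht).2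
      set x : ℝ := (1 - τ t) / l ^ 4 with hx
      have hx1 : |x| ≤ (1 + G) / l ^ 2 := by
        rw [hx, abs_div, abs_of_pos (by positivity : (0 : ℝ) < l ^ 4), div_le_div_iff₀ (by positivity)
          (by positivity)]
        have h6 : |1 - τ t| ≤ 1 + G * l ^ 2 := (abs_sub _ _).trans (by rw [abs_one]; linarith)
        calc |1 - τ t| * l ^ 2 ≤ (1 + G * l ^ 2) * l ^ 2 := mul_le_mul_of_nonneg_right h6 (by positivity)
          _ ≤ (l ^ 2 + G * l ^ 2) * l ^ 2 := mul_le_mul_of_nonneg_right (by linarith) (by positivity)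
          _ = (1 + G) * l ^ 4 := by ring
      have hx2 : |x| ≤ 1 + G := hx1.trans (div_le_self (by linarith) hl2)
      have h7 := pow_expand x r
      have h8 : x ^ 2 ≤ ((1 + G) / l ^ 2) ^ 2 := by
        rw [← sq_abs x]
        exact pow_le_pow_left₀ (abs_nonneg _) hx1 2
      have h9 : (1 + |x|) ^ r ≤ (2 + G) ^ r := pow_le_pow_left₀ (by positivity) (by linarith) r
      have h10 : |(1 + x) ^ r - 1 - r * x| ≤ (r : ℝ) ^ 2 * (2 + G) ^ r * ((1 + G) / l ^ 2) ^ 2 := by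
        refine h7.trans ?_
        have : (r : ℝ) ^ 2 * (1 + |x|) ^ r ≤ (r : ℝ) ^ 2 * (2 + G) ^ r :=
          mul_le_mul_of_nonneg_left h9 (by positivity)
        exact mul_le_mul this h8 (sq_nonneg _) (by positivity)
      show |((1 + x) ^ r - 1 - r * x) * τ t| ≤ _
      rw [abs_mul]
      calc _ ≤ (r : ℝ) ^ 2 * (2 + G) ^ r * ((1 + G) / l ^ 2) ^ 2 * (G * l ^ 2) :=
            mul_le_mul h10 hg' (abs_nonneg _) (by positivity)
        _ = _ := by field_simp
    have h6 : |∑ t with P t, E t| ≤ v * ((r : ℝ) ^ 2 * (2 + G) ^ r * (1 + G) ^ 2 * G / l ^ 2) := by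
      refine (abs_sum_le_sum_abs _ _).trans ((sum_le_card_nsmul _ _ _ h5).trans ?_)
      rw [nsmul_eq_mul]
      refine mul_le_mul_of_nonneg_right ?_ (by positivity)
      rw [hv, ← card_univ]
      exact Nat.cast_le.2 (card_le_card (filter_subset _ _))
    calc _ ≤ v * ((r : ℝ) ^ 2 * (2 + G) ^ r * (1 + G) ^ 2 * G / l ^ 2) * l ^ 2 :=
          mul_le_mul h6 hll hl0.le (by positivity)
      _ = _ := by field_simp
  -- the second term
  have b2 : |v * (r * (a - (s - l ^ 4)) / l ^ 4)| * l ≤ 2 * r * c * v := by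
    have h5 : |a - (s - l ^ 4)| ≤ 2 * (c * l ^ 2) := (abs_sub _ _).trans (by linarith)
    rw [abs_mul, abs_div, abs_mul, abs_of_nonneg hv0, abs_of_nonneg hr,
      abs_of_pos (by positivity : (0 : ℝ) < l ^ 4)]
    calc _ ≤ v * (r * (2 * (c * l ^ 2)) / l ^ 4) * l ^ 2 := by
          refine mul_le_mul ?_ hll hl0.le (by positivity)
          exact mul_le_mul_of_nonneg_left (div_le_div_of_nonneg_right
            (mul_le_mul_of_nonneg_left h5 hr) (by positivity)) hv0
      _ = _ := by field_simp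
  -- the third term
  have b3 : |∑ t with ¬ P t, L t| * l ≤ ((1 + r) * (D + K) + r * (D + K)) * v := by
    have h5 : ∀ t, |L t| ≤ (1 + r) * |τ t| + r * τ t ^ 2 / l ^ 4 := by
      intro t
      have hl4 : (1 : ℝ) ≤ l ^ 4 := one_le_pow₀ hl
      have h6 : L t = τ t * (1 + r / l ^ 4) - r * τ t ^ 2 / l ^ 4 := by
        rw [hL]
        ring
      rw [h6]
      refine (abs_sub _ _).trans (add_le_add ?_ (le_of_eq (abs_of_nonneg (by positivity))))
      rw [abs_mul, abs_of_nonneg (by positivity : (0 : ℝ) ≤ 1 + r / l ^ 4), mul_comm]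
      refine mul_le_mul_of_nonneg_right ?_ (abs_nonneg _)
      have : (r : ℝ) / l ^ 4 ≤ r := div_le_self hr hl4
      linarith
    have h6 : ∀ t, |τ t| ≤ l ^ 3 + τ t ^ 4 / (l ^ 3) ^ 3 := by
      intro t
      have := young (abs_nonneg (τ t)) (by positivity : (0 : ℝ) < l ^ 3)
      rwa [show |τ t| ^ 4 = τ t ^ 4 from by
        rw [← abs_pow]; exact abs_of_nonneg (by positivity)] at this
    have h7 : ∀ t, τ t ^ 2 ≤ l ^ 6 + τ t ^ 4 / l ^ 6 := fun t => young2 (by positivity)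
    have h8 : ∑ t with ¬ P t, τ t ^ 4 ≤ v * (K * (l ^ 4) ^ 2) := by
      refine le_trans ?_ h4
      exact sum_le_sum_of_subset_of_nonneg (filter_subset _ _) fun t _ _ => by positivity
    have h9 : ∑ t with ¬ P t, |τ t| * l ≤ (D + K) * v := by
      rw [← sum_mul]
      have h10 : ∑ t with ¬ P t, |τ t| ≤ ((univ.filter fun t => ¬ P t).card : ℝ) * l ^ 3 +
          v * (K * (l ^ 4) ^ 2) / (l ^ 3) ^ 3 := by
        refine (sum_le_sum fun t _ => h6 t).trans ?_
        rw [sum_add_distrib, sum_const, nsmul_eq_mul, ← sum_div]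
        exact add_le_add le_rfl (div_le_div_of_nonneg_right h8 (by positivity))
      calc _ ≤ (((univ.filter fun t => ¬ P t).card : ℝ) * l ^ 3 +
            v * (K * (l ^ 4) ^ 2) / (l ^ 3) ^ 3) * l := mul_le_mul_of_nonneg_right h10 hl0.le
        _ = ((univ.filter fun t => ¬ P t).card : ℝ) * l ^ 4 + K * v := by field_simp
        _ ≤ _ := by linarith
    have h11 : (∑ t with ¬ P t, τ t ^ 2 / l ^ 4) * l ≤ (D + K) * v := by
      rw [← sum_div]
      have h10 : ∑ t with ¬ P t, τ t ^ 2 ≤ ((univ.filter fun t => ¬ P t).card : ℝ) * l ^ 6 +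
          v * (K * (l ^ 4) ^ 2) / l ^ 6 := by
        refine (sum_le_sum fun t _ => h7 t).trans ?_
        rw [sum_add_distrib, sum_const, nsmul_eq_mul, ← sum_div]
        exact add_le_add le_rfl (div_le_div_of_nonneg_right h8 (by positivity))
      calc _ ≤ (((univ.filter fun t => ¬ P t).card : ℝ) * l ^ 6 +
            v * (K * (l ^ 4) ^ 2) / l ^ 6) / l ^ 4 * l ^ 2 :=
            mul_le_mul (div_le_div_of_nonneg_right h10 (by positivity)) hll hl0.le (by positivity)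
        _ = ((univ.filter fun t => ¬ P t).card : ℝ) * l ^ 4 + K * v := by field_simp
        _ ≤ _ := by linarith
    calc |∑ t with ¬ P t, L t| * l ≤ (∑ t with ¬ P t, ((1 + r) * |τ t| + r * τ t ^ 2 / l ^ 4)) * l :=
          mul_le_mul_of_nonneg_right ((abs_sum_le_sum_abs _ _).trans (sum_le_sum fun t _ => h5 t)) hl0.le
      _ = (1 + r) * ∑ t with ¬ P t, |τ t| * l + r * ((∑ t with ¬ P t, τ t ^ 2 / l ^ 4) * l) := by
          rw [sum_add_distrib, ← mul_sum, ← sum_mul, add_mul]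
          have : ∑ t with ¬ P t, (r : ℝ) * τ t ^ 2 / l ^ 4 = r * ∑ t with ¬ P t, τ t ^ 2 / l ^ 4 := by
            rw [mul_sum]
            exact sum_congr rfl fun t _ => by ring
          rw [this]
          ring
      _ ≤ (1 + r) * ((D + K) * v) + r * ((D + K) * v) :=
          add_le_add (mul_le_mul_of_nonneg_left h9 (by linarith)) (mul_le_mul_of_nonneg_left h11 hr)
      _ = _ := by ring
  rw [e2]
  have h12 : |∑ t with P t, E t + v * (r * (a - (s - l ^ 4)) / l ^ 4) - ∑ t with ¬ P t, L t| ≤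
      |∑ t with P t, E t| + |v * (r * (a - (s - l ^ 4)) / l ^ 4)| + |∑ t with ¬ P t, L t| :=
    (abs_sub _ _).trans (add_le_add (abs_add_le _ _) le_rfl)
  calc _ ≤ (|∑ t with P t, E t| + |v * (r * (a - (s - l ^ 4)) / l ^ 4)| + |∑ t with ¬ P t, L t|) * l :=
        mul_le_mul_of_nonneg_right h12 hl0.le
    _ = |∑ t with P t, E t| * l + |v * (r * (a - (s - l ^ 4)) / l ^ 4)| * l +
        |∑ t with ¬ P t, L t| * l := by ring
    _ ≤ _ := by
        unfold KC
        have := add_le_add (add_le_add b1 b2) b3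
        linarith

end Pool.Agent.L0h11.NA
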