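import Mathlib
import Pool.Agent.L0h11.I.Df
import Pool.Agent.Y707.PR.Sys

/-!
# Generic complete intersection curves over finitely generated fields: definitions

`A` is a finitely generated domain of characteristic zero, `M` its field of fractions, and `Z` is a smooth
projective geometrically connected variety over `M` of dimension `n + 1 ≥ 2`, given by homogeneous
equations over `A` and the eigenvalues of Frobenius at the closed points of `Spec A` (`FrobVariety`).
-/

set_option autoImplicit false

namespace Pool.Agent.L0h11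

open NumberField IsDedekindDomain
open scoped LinearAlgebra.Projectivization

/-- The generic complete intersection curve `Y` of the variety `Z`, of dimension `n + 1`, with `n`
hypersurfaces of the degrees `d j ≥ 3`, and the number `r`: the curve `Y` is considered over the
function field of its power `Y ^ r`. -/
structure CurveFamily (A : Type) [CommRing A] where
  Z : FrobVariety A
  d : Fin (Z.dim - 1) → ℕ
  r : ℕ
  two_le : 2 ≤ Z.dim
  three_le : ∀ j, 3 ≤ d j

namespace CurveFamily

variable {A : Type} [CommRing A] (T : CurveFamily A)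

/-- the coefficients of the hypersurfaces -/
abbrev Coeff : Type := Σ j, Monomials T.Z.M (T.d j)

/-- the ring of polynomials in the coefficients; `K` is its field of fractions -/
abbrev B : Type := MvPolynomial T.Coeff A

/-- the number of the coefficients -/
def N : ℕ := Fintype.card T.Coeff

/-- the generic form of degree `d j` -/
noncomputable def form (j : Fin (T.Z.dim - 1)) : MvPolynomial (Fin (T.Z.M + 1)) T.B :=
  ∑ α : Monomials T.Z.M (T.d j), MvPolynomial.C (MvPolynomial.X ⟨j, α⟩) *
    ∏ i, MvPolynomial.X i ^ (α.1 i : ℕ)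

/-- the points of the fibre of `Y` at a point of `Spec B` with values in the field `F`, with coordinates
in `F` -/
def Points {F : Type} [Field F] (φ : T.B →+* F) : Type :=
  {p : ℙ F (Fin (T.Z.M + 1) → F) //
    (∀ f ∈ T.Z.eqs, MvPolynomial.eval₂ (φ.comp MvPolynomial.C) p.rep f = 0) ∧
    ∀ j, MvPolynomial.eval₂ φ p.rep (T.form j) = 0}

/-- the trace of the Frobenius on `H¹` of the fibre of `Y`, a smooth projective curve over `F` -/
noncomputable def traceOne {F : Type} [Field F] (φ : T.B →+* F) : ℝ :=
  (Nat.card F : ℝ) + 1 - Nat.card (T.Points φ)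

/-- The open subscheme `N₁ ≠ 0` of `Spec B` is not empty, and over it `Z` has good reduction and `Y` is a
family of smooth geometrically connected curves (of genus `g`), so that the bound of Weil holds. -/
def IsModel (N₁ : T.B) : Prop :=
  N₁ ≠ 0 ∧ ∃ g : ℕ, ∀ (F : Type) [Field F] [Finite F] (φ : T.B →+* F), φ N₁ ≠ 0 →
    φ (MvPolynomial.C T.Z.good) ≠ 0 ∧ |T.traceOne φ| ≤ 2 * g * √(Nat.card F : ℝ)

section

variable {k : Type} [Field k] [NumberField k] [Algebra (𝓞 k) A]

/-- The points of the `r`-fold fibre power of the family of curves over the open subscheme `N₁ ≠ 0` of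
`Spec B`, above the prime `v` of `k`, with values in its residue field: the base of the fibration. -/
def BasePoint (N₁ : T.B) (v : HeightOneSpectrum (𝓞 k)) : Type :=
  {b : Σ φ : T.B →+* 𝓞 k ⧸ v.asIdeal, (Fin T.r → T.Points φ) //
    b.1.comp ((MvPolynomial.C : A →+* T.B).comp (algebraMap (𝓞 k) A)) =
      Ideal.Quotient.mk v.asIdeal ∧ b.1 N₁ ≠ 0}

/-- The average `𝔄_v` of the traces of the Frobenius on `H¹` of the fibres of `Y` over the points of the
base, of dimension `m + N + r`, where `m` is the transcendence degree of `M`. -/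
noncomputable def average (m : ℕ) (N₁ : T.B) (v : HeightOneSpectrum (𝓞 k)) : ℝ :=
  ((Nat.card (𝓞 k ⧸ v.asIdeal) : ℝ) ^ (m + T.N + T.r))⁻¹ *
    ∑ᶠ b : T.BasePoint N₁ v, T.traceOne b.1.1

/-- The average of a function of the points of `Spec A` above `v` with values in its residue field and over
which the open subscheme `N₁ ≠ 0` is not empty, where `m` is the transcendence degree of `M`. -/
noncomputable def baseAverage (m : ℕ) (N₁ : T.B) (v : HeightOneSpectrum (𝓞 k))
    (f : (A →+* 𝓞 k ⧸ v.asIdeal) → ℝ) : ℝ :=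
  ((Nat.card (𝓞 k ⧸ v.asIdeal) : ℝ) ^ m)⁻¹ *
    ∑ᶠ φ : {φ : A →+* 𝓞 k ⧸ v.asIdeal // φ.comp (algebraMap (𝓞 k) A) =
      Ideal.Quotient.mk v.asIdeal ∧ MvPolynomial.map φ N₁ ≠ 0}, f φ.1

/-- the average `𝔄_v(Z)` of the traces of the Frobenius on `H¹` of the fibres of `Z` -/
noncomputable def averageOne (m : ℕ) (N₁ : T.B) (v : HeightOneSpectrum (𝓞 k)) : ℝ :=
  T.baseAverage m N₁ v fun φ => (T.Z.tr 1 (RingHom.ker φ) (Nat.card (𝓞 k ⧸ v.asIdeal))).re

/-- the average `𝔅_v(Z)` of the traces of the Frobenius on `H²` of the fibres of `Z`, divided by `q_v` -/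
noncomputable def averageTwo (m : ℕ) (N₁ : T.B) (v : HeightOneSpectrum (𝓞 k)) : ℝ :=
  T.baseAverage m N₁ v fun φ => (T.Z.tr 2 (RingHom.ker φ) (Nat.card (𝓞 k ⧸ v.asIdeal))).re /
    (Nat.card (𝓞 k ⧸ v.asIdeal) : ℝ)

/-- The average of the traces of the Frobenius on `H¹ ⊗ H¹` of the fibres of `Z`, divided by `q_v`. -/
noncomputable def averageSquare (m : ℕ) (N₁ : T.B) (v : HeightOneSpectrum (𝓞 k)) : ℝ :=
  T.baseAverage m N₁ v fun φ => (T.Z.tr 1 (RingHom.ker φ) (Nat.card (𝓞 k ⧸ v.asIdeal))).re ^ 2 /
    (Nat.card (𝓞 k ⧸ v.asIdeal) : ℝ)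

end

end CurveFamily

end Pool.Agent.L0h11
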