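import Mathlib
import Pool.Agent.L0h11.I.Ps

/-!
# Moments of the numbers of common zeros
-/

set_option autoImplicit false
set_option linter.all false

namespace Pool.Agent.L0h11.NA

open Finset


section

variable {F : Type} [AddCommGroup F] [Nontrivial F] [Fintype F] [DecidableEq F] {V S : Type} [AddCommGroup V] [Fintype V]
  [Fintype S] [DecidableEq S] (ev : S → V →+ F)

/-- the values at the points of every set of at most `m` points are independent -/
def Indep (m : ℕ) : Prop :=
  ∀ D : Finset S, D.card ≤ m → ∀ w : S → F, ∃ t : V, ∀ x ∈ D, ev x t = w x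

/-- the centred indicator -/
noncomputable def gg (z : F) : ℝ := (if z = 0 then 1 else 0) - (Fintype.card F : ℝ)⁻¹

/-- its moments -/
noncomputable def mm (F : Type) [AddCommGroup F] [Nontrivial F] [Fintype F] [DecidableEq F] (k : ℕ) : ℝ :=
  (Fintype.card F : ℝ)⁻¹ * ∑ z : F, gg z ^ k

lemma card_pos' : (0 : ℝ) < Fintype.card F := Nat.cast_pos.2 Fintype.card_pos

lemma two_le_card : (2 : ℝ) ≤ Fintype.card F := by
  have := Fintype.one_lt_card (α := F)
  exact_mod_cast this

lemma mm_eq (k : ℕ) : mm F k = (Fintype.card F : ℝ)⁻¹ * (1 - (Fintype.card F : ℝ)⁻¹) ^ k +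
    (1 - (Fintype.card F : ℝ)⁻¹) * (-(Fintype.card F : ℝ)⁻¹) ^ k := by
  have hq := card_pos' (F := F)
  unfold mm
  rw [← add_sum_erase univ _ (mem_univ (0 : F))]
  have h1 : ∀ z ∈ univ.erase (0 : F), gg z ^ k = (-(Fintype.card F : ℝ)⁻¹) ^ k := by
    intro z hz
    unfold gg
    rw [if_neg (ne_of_mem_erase hz), zero_sub]
  rw [sum_congr rfl h1, sum_const, card_erase_of_mem (mem_univ _), card_univ, nsmul_eq_mul,
    Nat.cast_sub Fintype.card_pos]
  unfold gg
  rw [if_pos rfl, Nat.cast_one]
  field_simp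

lemma mm_one : mm F 1 = 0 := by
  rw [mm_eq]
  ring

lemma mm_two : mm F 2 = (Fintype.card F : ℝ)⁻¹ * (1 - (Fintype.card F : ℝ)⁻¹) := by
  rw [mm_eq]
  have hq := card_pos' (F := F)
  ring

lemma mm_le {k : ℕ} (hk : 2 ≤ k) : |mm F k| ≤ (Fintype.card F : ℝ)⁻¹ := by
  have hq := card_pos' (F := F)
  have hq2 := two_le_card (F := F)
  set a := (Fintype.card F : ℝ)⁻¹ with ha
  have ha0 : 0 < a := inv_pos.2 hq
  have ha1 : a ≤ 1 := inv_le_one_of_one_le₀ (by linarith)
  rw [mm_eq, ← ha]
  have h1 : |a * (1 - a) ^ k + (1 - a) * (-a) ^ k| ≤ a * (1 - a) ^ k + (1 - a) * a ^ k := by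
    refine (abs_add_le _ _).trans ?_
    rw [abs_mul, abs_mul, abs_pow, abs_pow, abs_neg, abs_of_pos ha0, abs_of_nonneg (by linarith : 0 ≤ 1 - a)]
  refine h1.trans ?_
  have h2 : (1 - a) ^ k ≤ (1 - a) ^ 1 := pow_le_pow_of_le_one (by linarith) (by linarith) (by omega)
  have h3 : a ^ k ≤ a ^ 2 := pow_le_pow_of_le_one ha0.le ha1 hk
  nlinarith [mul_le_mul_of_nonneg_left h2 ha0.le, mul_le_mul_of_nonneg_left h3 (by linarith : 0 ≤ 1 - a)]

/-- independent values -/
lemma sum_indep {m : ℕ} (hI : Indep ev m) {D : Finset S} (hD : D.card ≤ m) (k : S → ℕ) :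
    ∑ t, ∏ x ∈ D, gg (ev x t) ^ k x = Fintype.card V * ∏ x ∈ D, mm F (k x) := by
  classical
  let L : V →+ (D → F) :=
    { toFun := fun t x => ev x.1 t
      map_zero' := by funext x; exact map_zero _
      map_add' := fun a b => by funext x; exact map_add _ _ _ }
  have hL : Function.Surjective L := by
    intro w
    obtain ⟨t, ht⟩ := hI D hD (fun x => if h : x ∈ D then w ⟨x, h⟩ else 0)
    refine ⟨t, funext fun x => ?_⟩
    show ev x.1 t = w x
    rw [ht x.1 x.2, dif_pos x.2]
  have h1 := Pool.Agent.L0h11.TF.sum_surj hL (fun w => ∏ x : D, gg (w x) ^ k x.1)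
  have h2 : ∀ t, ∏ x : D, gg (L t x) ^ k x.1 = ∏ x ∈ D, gg (ev x t) ^ k x := by
    intro t
    exact prod_coe_sort D (fun x => gg (ev x t) ^ k x)
  rw [sum_congr rfl fun t _ => h2 t] at h1
  have h3 : ∑ w : D → F, ∏ x : D, gg (w x) ^ k x.1 = ∏ x : D, ∑ z : F, gg z ^ k x.1 := by
    rw [prod_univ_sum, Fintype.piFinset_univ]
  rw [h3] at h1
  have h4 : ∏ x : D, ∑ z : F, gg z ^ k x.1 = ∏ x ∈ D, ∑ z : F, gg z ^ k x :=
    prod_coe_sort D (fun x => ∑ z : F, gg z ^ k x)
  have h5 : ∏ x ∈ D, mm F (k x) = ((Fintype.card F : ℝ)⁻¹) ^ D.card * ∏ x ∈ D, ∑ z : F, gg z ^ k x := by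
    unfold mm
    rw [prod_mul_distrib, prod_const]
  rw [Fintype.card_fun, Fintype.card_coe, h4] at h1
  rw [h5]
  have hq := card_pos' (F := F)
  have hqD : (0 : ℝ) < (Fintype.card F : ℝ) ^ D.card := by positivity
  push_cast at h1
  rw [inv_pow]
  field_simp
  linarith [h1]

/-- the moment of a family of points -/
noncomputable def EE {k : ℕ} (F : Type) [AddCommGroup F] [Nontrivial F] [Fintype F] [DecidableEq F] (x : Fin k → S) : ℝ :=
  ∏ v ∈ univ.image x, mm F (univ.filter fun j => x j = v).card

/-- the moments -/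
theorem moment_eq {m k : ℕ} (hI : Indep ev m) (hk : k ≤ m) :
    ∑ t, (∑ x, gg (ev x t)) ^ k = Fintype.card V * ∑ x : Fin k → S, EE F x := by
  have h1 : ∀ t, (∑ x, gg (ev x t)) ^ k = ∑ x : Fin k → S, ∏ j, gg (ev (x j) t) := by
    intro t
    exact Fintype.sum_pow _ _
  rw [sum_congr rfl fun t _ => h1 t, sum_comm, mul_sum]
  refine sum_congr rfl fun x _ => ?_
  have h2 : ∀ t, ∏ j, gg (ev (x j) t) =
      ∏ v ∈ univ.image x, gg (ev v t) ^ (univ.filter fun j => x j = v).card := by
    intro t
    exact prod_comp (fun v => gg (ev v t)) x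
  rw [sum_congr rfl fun t _ => h2 t]
  refine sum_indep ev hI ?_ (fun v => (univ.filter fun j => x j = v).card)
  exact (card_image_le.trans (by rw [card_univ, Fintype.card_fin])).trans hk


lemma EE_zero {k : ℕ} {x : Fin k → S} {v : S} (hv : v ∈ univ.image x)
    (h : (univ.filter fun j => x j = v).card = 1) : EE F x = 0 := by
  unfold EE
  refine prod_eq_zero hv ?_
  rw [h, mm_one]

lemma EE_le {k : ℕ} (x : Fin k → S) : |EE F x| ≤ ((Fintype.card F : ℝ)⁻¹) ^ (univ.image x).card := by
  by_cases h : ∃ v ∈ univ.image x, (univ.filter fun j => x j = v).card = 1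
  · obtain ⟨v, hv, h1⟩ := h
    rw [EE_zero hv h1, abs_zero]
    exact pow_nonneg (inv_nonneg.2 (card_pos' (F := F)).le) _
  · push Not at h
    unfold EE
    rw [abs_prod, ← prod_const]
    refine prod_le_prod (fun _ _ => abs_nonneg _) fun v hv => ?_
    apply mm_le
    have h1 : 0 < (univ.filter fun j => x j = v).card := by
      obtain ⟨j, -, hj⟩ := mem_image.1 hv
      exact card_pos.2 ⟨j, by rw [mem_filter]; exact ⟨mem_univ _, hj⟩⟩
    have h2 := h v hv
    omega


/-- few values -/
lemma card_img {k v : ℕ} (hk : 0 < k) (hvk : v ≤ k) :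
    (univ.filter fun x : Fin k → S => (univ.image x).card ≤ v).card ≤ k ^ k * Fintype.card S ^ v :=
  Pool.Agent.L0h11.TF.card_img' hk hvk

/-- the second moment -/
theorem moment_two {m : ℕ} (hI : Indep ev m) (hm : 2 ≤ m) :
    ∑ t, (∑ x, gg (ev x t)) ^ 2 = Fintype.card V * (Fintype.card S * mm F 2) := by
  rw [moment_eq ev hI hm]
  congr 1
  have h1 : ∀ x : Fin 2 → S, EE F x = if x 0 = x 1 then mm F 2 else 0 := by
    intro x
    split_ifs with h
    · have e1 : univ.image x = {x 0} := by
        ext v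
        simp only [mem_image, mem_univ, true_and, mem_singleton, Fin.exists_fin_two]
        constructor
        · rintro (h' | h')
          · exact h'.symm
          · rw [h]; exact h'.symm
        · rintro rfl
          exact Or.inl rfl
      unfold EE
      rw [e1, prod_singleton]
      have e2 : (univ.filter fun j => x j = x 0) = univ := by
        ext j
        simp only [mem_filter, mem_univ, true_and, iff_true]
        fin_cases j
        · rfl
        · exact h.symm
      rw [e2, card_univ, Fintype.card_fin]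
    · refine EE_zero (v := x 0) (mem_image_of_mem _ (mem_univ _)) ?_
      have e2 : (univ.filter fun j => x j = x 0) = {0} := by
        ext j
        simp only [mem_filter, mem_univ, true_and, mem_singleton]
        constructor
        · intro h'
          fin_cases j
          · rfl
          · exact absurd h'.symm h
        · rintro rfl
          rfl
      rw [e2, card_singleton]
  rw [sum_congr rfl fun x _ => h1 x]
  rw [← (finTwoArrowEquiv S).symm.sum_comp, Fintype.sum_prod_type]
  have h2 : ∀ a b : S, (if ((finTwoArrowEquiv S).symm (a, b)) 0 = ((finTwoArrowEquiv S).symm (a, b)) 1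
      then mm F 2 else 0) = if a = b then mm F 2 else 0 := fun a b => rfl
  simp only [h2, sum_ite_eq, mem_univ, if_true, sum_const, card_univ, nsmul_eq_mul]

/-- the fourth moment -/
theorem moment_four {m : ℕ} (hI : Indep ev m) (hm : 4 ≤ m) :
    ∑ t, (∑ x, gg (ev x t)) ^ 4 ≤ Fintype.card V * (512 *
      (1 + (Fintype.card S : ℝ) * (Fintype.card F : ℝ)⁻¹) ^ 2) := by
  rw [moment_eq ev hI hm]
  refine mul_le_mul_of_nonneg_left ?_ (Nat.cast_nonneg _)
  set a : ℝ := (Fintype.card F : ℝ)⁻¹ with ha
  have ha0 : 0 < a := inv_pos.2 (card_pos' (F := F))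
  set z : ℝ := (Fintype.card S : ℝ) with hz
  have hz0 : 0 ≤ z := Nat.cast_nonneg _
  have h1 : ∀ x : Fin 4 → S, EE F x ≤ (if (univ.image x).card ≤ 1 then a else 0) +
      if (univ.image x).card ≤ 2 then a ^ 2 else 0 := by
    intro x
    have hle := (le_abs_self _).trans (EE_le (F := F) x)
    have hpos : 0 < (univ.image x).card := card_pos.2 ⟨x 0, mem_image_of_mem _ (mem_univ _)⟩
    rcases Nat.lt_or_ge 2 (univ.image x).card with h2 | h2
    · rw [if_neg (by omega), if_neg (by omega), add_zero]
      -- some value is taken once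
      have hsum : 4 = ∑ v ∈ univ.image x, (univ.filter fun j => x j = v).card := by
        conv_lhs => rw [← Fintype.card_fin 4, ← card_univ]
        exact card_eq_sum_card_image x univ
      have hex : ∃ v ∈ univ.image x, (univ.filter fun j => x j = v).card = 1 := by
        by_contra hcon
        push Not at hcon
        have h3 : ∑ v ∈ univ.image x, 2 ≤ ∑ v ∈ univ.image x, (univ.filter fun j => x j = v).card := by
          refine sum_le_sum fun v hv => ?_
          have h4 : 0 < (univ.filter fun j => x j = v).card := by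
            obtain ⟨j, -, hj⟩ := mem_image.1 hv
            exact card_pos.2 ⟨j, by rw [mem_filter]; exact ⟨mem_univ _, hj⟩⟩
          have h5 := hcon v hv
          omega
        rw [← hsum, sum_const, smul_eq_mul] at h3
        omega
      obtain ⟨v, hv, h3⟩ := hex
      exact le_of_eq (EE_zero hv h3)
    · rcases Nat.lt_or_ge 1 (univ.image x).card with h3 | h3
      · have h4 : (univ.image x).card = 2 := by omega
        rw [h4] at hle ⊢
        rw [if_neg (by omega), if_pos le_rfl, zero_add]
        exact hle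
      · have h4 : (univ.image x).card = 1 := by omega
        rw [h4, pow_one] at hle
        rw [if_pos h3, if_pos h2]
        have := sq_nonneg a
        linarith
  refine (sum_le_sum fun x _ => h1 x).trans ?_
  rw [sum_add_distrib, ← sum_filter, ← sum_filter, sum_const, sum_const, nsmul_eq_mul, nsmul_eq_mul]
  have h5 : (((univ.filter fun x : Fin 4 → S => (univ.image x).card ≤ 1).card : ℕ) : ℝ) ≤ 256 * z := by
    have := card_img (S := S) (k := 4) (v := 1) (by norm_num) (by norm_num)
    have h6 : (((univ.filter fun x : Fin 4 → S => (univ.image x).card ≤ 1).card : ℕ) : ℝ) ≤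
        ((4 ^ 4 * Fintype.card S ^ 1 : ℕ) : ℝ) := Nat.cast_le.2 this
    refine h6.trans (le_of_eq ?_)
    push_cast
    norm_num
    rfl
  have h7 : (((univ.filter fun x : Fin 4 → S => (univ.image x).card ≤ 2).card : ℕ) : ℝ) ≤
      256 * z ^ 2 := by
    have := card_img (S := S) (k := 4) (v := 2) (by norm_num) (by norm_num)
    have h6 : (((univ.filter fun x : Fin 4 → S => (univ.image x).card ≤ 2).card : ℕ) : ℝ) ≤
        ((4 ^ 4 * Fintype.card S ^ 2 : ℕ) : ℝ) := Nat.cast_le.2 this
    refine h6.trans (le_of_eq ?_)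
    push_cast
    norm_num
    rfl
  calc _ ≤ 256 * z * a + 256 * z ^ 2 * a ^ 2 :=
        add_le_add (mul_le_mul_of_nonneg_right h5 ha0.le) (mul_le_mul_of_nonneg_right h7 (by positivity))
    _ ≤ 512 * (1 + z * a) ^ 2 := by nlinarith [mul_nonneg hz0 ha0.le, sq_nonneg (z * a)]

end

end Pool.Agent.L0h11.NA
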