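import Mathlib
import Pool.Agent.L0h11.N.Df
import Pool.Agent.L0h11.N.Mw
import Pool.Agent.L0h11.N.Co
import Pool.Agent.L0h11.I.Fv
import Pool.Agent.L0h11.I.Gl

/-!
# The moments of the traces over a finite field
-/

set_option autoImplicit false
set_option linter.all false

namespace Pool.Agent.L0h11.CurveFamily

open Finset
open Pool.Agent.TH958.An
open Pool.Agent.L0h11.TF (evf evf_apply indep_forms fibreCount_eq)
open Pool.Agent.L0h11.NA
open scoped LinearAlgebra.Projectivization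

variable {A : Type} [CommRing A] (T : CurveFamily A) {F : Type} [Field F] [Fintype F] (φ : A →+* F)

/-- the points of `Z` -/
abbrev ST : Type := {p : ℙ F (Fin (T.Z.M + 1) → F) // ∀ g ∈ T.Z.eqs, MvPolynomial.eval₂ φ p.rep g = 0}

instance finST : Finite (T.ST φ) :=
  Finite.of_injective (fun p => p.1.rep) fun p p' h => by
    apply Subtype.ext
    rw [← Projectivization.mk_rep p.1, ← Projectivization.mk_rep p'.1]
    congr 1

/-- the value space -/
abbrev W (F : Type) : Type := Fin (T.Z.dim - 1) → F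

instance : Nonempty (Fin (T.Z.dim - 1)) := ⟨⟨0, by have := T.two_le; omega⟩⟩

/-- the values of the forms -/
noncomputable def ev (x : T.ST φ) : (T.Coeff → F) →+ T.W F where
  toFun t j := evf (d := T.d j) x.1.rep fun α => t ⟨j, α⟩
  map_zero' := by
    funext j
    exact map_zero (evf (d := T.d j) x.1.rep)
  map_add' t t' := by
    funext j
    exact map_add (evf (d := T.d j) x.1.rep) (fun α => t ⟨j, α⟩) (fun α => t' ⟨j, α⟩)

lemma ev_apply (x : T.ST φ) (t : T.Coeff → F) (j : Fin (T.Z.dim - 1)) :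
    T.ev φ x t j = evf (d := T.d j) x.1.rep fun α => t ⟨j, α⟩ := rfl

/-- the point of the parameter space -/
noncomputable abbrev pt (t : T.Coeff → F) : T.B →+* F := MvPolynomial.eval₂Hom φ t

lemma pt_comp (t : T.Coeff → F) : (T.pt φ t).comp MvPolynomial.C = φ := by
  ext a
  rw [RingHom.comp_apply, MvPolynomial.coe_eval₂Hom, MvPolynomial.eval₂_C]

lemma eval_form (t : T.Coeff → F) (x : Fin (T.Z.M + 1) → F) (j : Fin (T.Z.dim - 1)) :
    MvPolynomial.eval₂ (T.pt φ t) x (T.form j) = evf (d := T.d j) x fun α => t ⟨j, α⟩ := by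
  unfold form
  rw [MvPolynomial.eval₂_sum, evf_apply]
  refine sum_congr rfl fun α _ => ?_
  rw [MvPolynomial.eval₂_mul, MvPolynomial.eval₂_C, MvPolynomial.coe_eval₂Hom, MvPolynomial.eval₂_X,
    MvPolynomial.eval₂_prod]
  congr 1
  refine prod_congr rfl fun i _ => ?_
  rw [MvPolynomial.eval₂_pow, MvPolynomial.eval₂_X]

/-- the points of the curves -/
noncomputable def pointsEquiv (t : T.Coeff → F) :
    T.Points (T.pt φ t) ≃ {x : T.ST φ // T.ev φ x t = 0} where
  toFun p := ⟨⟨p.1, fun g hg => (congrArg (fun ψ : A →+* F => MvPolynomial.eval₂ ψ p.1.rep g)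
      (T.pt_comp φ t)).symm.trans (p.2.1 g hg)⟩, by
    funext j
    exact (T.eval_form φ t p.1.rep j).symm.trans (p.2.2 j)⟩
  invFun x := ⟨x.1.1, fun g hg => (congrArg (fun ψ : A →+* F => MvPolynomial.eval₂ ψ x.1.1.rep g)
      (T.pt_comp φ t)).trans (x.1.2 g hg), fun j => (T.eval_form φ t x.1.1.rep j).trans
      (congrFun x.2 j)⟩
  left_inv _ := rfl
  right_inv _ := rfl

instance finPoints (t : T.Coeff → F) : Finite (T.Points (T.pt φ t)) :=
  Finite.of_equiv _ (T.pointsEquiv φ t).symm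

lemma card_W [Fintype F] : (Fintype.card (T.W F) : ℝ) = (Fintype.card F : ℝ) ^ (T.Z.dim - 1) := by
  rw [Fintype.card_fun, Fintype.card_fin]
  push_cast
  rfl

open Classical in
/-- the centred number of the points -/
noncomputable def XX (t : T.Coeff → F) : ℝ :=
  letI := Fintype.ofFinite (T.ST φ)
  ∑ x, gg (T.ev φ x t)

/-- the mean of the traces -/
noncomputable def aa : ℝ :=
  (Fintype.card F : ℝ) + 1 - Nat.card (T.ST φ) / (Fintype.card F : ℝ) ^ (T.Z.dim - 1)

open Classical in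
lemma card_points (t : T.Coeff → F) : (Nat.card (T.Points (T.pt φ t)) : ℝ) =
    T.XX φ t + Nat.card (T.ST φ) / (Fintype.card F : ℝ) ^ (T.Z.dim - 1) := by
  letI := Fintype.ofFinite (T.ST φ)
  rw [Nat.card_congr (T.pointsEquiv φ t), Nat.card_eq_fintype_card, Fintype.card_subtype]
  unfold XX gg
  rw [sum_sub_distrib, sum_boole, sum_const, card_univ, nsmul_eq_mul, card_W, div_eq_mul_inv,
    Nat.card_eq_fintype_card]
  ring

lemma traceOne_eq (t : T.Coeff → F) : T.traceOne (T.pt φ t) = T.aa φ - T.XX φ t := by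
  unfold traceOne aa
  rw [card_points, Nat.card_eq_fintype_card]
  ring

open Classical in
lemma indep_ev [Fintype (T.ST φ)] : Indep (T.ev φ) 4 := by
  intro D hD w
  have h1 : ∀ j, ∃ t : Monomials T.Z.M (T.d j) → F, ∀ x ∈ D, evf (d := T.d j) x.1.rep t = w x j := by
    intro j
    have h3 := T.three_le j
    exact indep_forms (d := T.d j) (T.ST φ) (fun x => x.1) Subtype.val_injective D (by omega)
      (fun x => w x j)
  choose t ht using h1
  refine ⟨fun c => t c.1 c.2, fun x hx => ?_⟩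
  funext j
  exact ht j x hx

open Classical in
lemma sum_XX : ∑ t, T.XX φ t = 0 := by
  letI := Fintype.ofFinite (T.ST φ)
  have h1 := moment_eq (T.ev φ) (T.indep_ev φ) (k := 1) (by norm_num)
  have h2 : ∀ x : Fin 1 → T.ST φ, EE (T.W F) x = 0 := by
    intro x
    refine EE_zero (v := x 0) (mem_image_of_mem _ (mem_univ _)) ?_
    have e2 : (univ.filter fun j => x j = x 0) = univ := by
      ext j
      simp only [mem_filter, mem_univ, true_and, iff_true]
      rw [Subsingleton.elim j 0]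
    rw [e2, card_univ, Fintype.card_fin]
  rw [sum_congr rfl fun x _ => h2 x, sum_const_zero, mul_zero] at h1
  rw [← h1]
  refine sum_congr rfl fun t _ => ?_
  rw [pow_one]
  rfl

/-- the variance -/
noncomputable def ss : ℝ := Nat.card (T.ST φ) * (((Fintype.card F : ℝ) ^ (T.Z.dim - 1))⁻¹ *
  (1 - ((Fintype.card F : ℝ) ^ (T.Z.dim - 1))⁻¹))

open Classical in
lemma sum_XX_sq : ∑ t, T.XX φ t ^ 2 = Fintype.card (T.Coeff → F) * T.ss φ := by
  letI := Fintype.ofFinite (T.ST φ)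
  have h1 := moment_two (T.ev φ) (T.indep_ev φ) (by norm_num)
  rw [mm_two, card_W] at h1
  unfold ss
  rw [Nat.card_eq_fintype_card]
  exact h1

open Classical in
lemma sum_XX_four : ∑ t, T.XX φ t ^ 4 ≤ Fintype.card (T.Coeff → F) * (512 *
    (1 + Nat.card (T.ST φ) / (Fintype.card F : ℝ) ^ (T.Z.dim - 1)) ^ 2) := by
  letI := Fintype.ofFinite (T.ST φ)
  have h1 := moment_four (T.ev φ) (T.indep_ev φ) le_rfl
  rw [card_W] at h1
  rw [Nat.card_eq_fintype_card, div_eq_mul_inv]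
  exact h1

lemma sum_tau : ∑ t, T.traceOne (T.pt φ t) = Fintype.card (T.Coeff → F) * T.aa φ := by
  classical
  rw [sum_congr rfl fun t _ => T.traceOne_eq φ t, sum_sub_distrib, sum_XX, sum_const, card_univ,
    nsmul_eq_mul, sub_zero]

lemma sum_tau_sq : ∑ t, T.traceOne (T.pt φ t) ^ 2 =
    Fintype.card (T.Coeff → F) * (T.aa φ ^ 2 + T.ss φ) := by
  classical
  have h1 : ∀ t, T.traceOne (T.pt φ t) ^ 2 =
      T.aa φ ^ 2 - 2 * T.aa φ * T.XX φ t + T.XX φ t ^ 2 := fun t => by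
    rw [traceOne_eq]
    ring
  rw [sum_congr rfl fun t _ => h1 t, sum_add_distrib, sum_sub_distrib, ← mul_sum, sum_XX, sum_XX_sq,
    sum_const, card_univ, nsmul_eq_mul]
  ring

lemma sum_tau_four : ∑ t, T.traceOne (T.pt φ t) ^ 4 ≤
    Fintype.card (T.Coeff → F) * (8 * T.aa φ ^ 4 + 4096 *
      (1 + Nat.card (T.ST φ) / (Fintype.card F : ℝ) ^ (T.Z.dim - 1)) ^ 2) := by
  classical
  have h1 : ∀ t, T.traceOne (T.pt φ t) ^ 4 ≤ 8 * T.aa φ ^ 4 + 8 * T.XX φ t ^ 4 := fun t => by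
    rw [traceOne_eq]
    nlinarith [sq_nonneg (T.aa φ + T.XX φ t), sq_nonneg (T.aa φ - T.XX φ t),
      sq_nonneg (T.aa φ ^ 2 - T.XX φ t ^ 2), sq_nonneg ((T.aa φ + T.XX φ t) ^ 2),
      sq_nonneg (T.aa φ * (T.aa φ + T.XX φ t)), sq_nonneg (T.XX φ t * (T.aa φ + T.XX φ t)),
      sq_nonneg (T.aa φ * T.XX φ t)]
  refine (sum_le_sum fun t _ => h1 t).trans ?_
  rw [sum_add_distrib, ← mul_sum, ← mul_sum, sum_const, card_univ, nsmul_eq_mul]
  have h2 := T.sum_XX_four φ
  linarith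

section asymptotics

variable {T φ} (hg : φ T.Z.good ≠ 0) {n : ℕ} (hn : T.Z.dim = n + 1)

lemma one_le_n (hn : T.Z.dim = n + 1) : 1 ≤ n := by
  have := T.two_le
  omega

lemma card_ST : FrobVariety.bb T.Z ≥ 0 → (fibreCount (ptOf φ).asIdeal (ptOf φ).isMaximal T.Z.eqs
    (Fintype.card F)) = Nat.card (T.ST φ) := fun _ => fibreCount_eq _ T.Z.homogeneous _

/-- the real parts of the traces -/
noncomputable abbrev rt (T : CurveFamily A) (φ : A →+* F) (a : ℕ) : ℝ :=
  (T.Z.tt φ a).re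

include hg hn in
/-- the number of the points of `Z` -/
lemma count_Z : |(Nat.card (T.ST φ) : ℝ) / (Fintype.card F : ℝ) ^ n -
    ((Fintype.card F : ℝ) - T.rt φ 1 + T.rt φ 2 / Fintype.card F)| * √(Fintype.card F : ℝ) ≤ T.Z.bb := by
  have h1n := one_le_n hn
  set q : ℝ := (Fintype.card F : ℝ) with hq
  have hq1 : 1 < q := FrobVariety.one_le_card' F
  have hs : √q * √q = q := Real.mul_self_sqrt (by linarith)
  have hs0 : 0 < √q := Real.sqrt_pos.2 (by linarith)
  have h1 := FrobVariety.points_tt (X := T.Z) hg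
  rw [card_ST T.Z.bb_nonneg] at h1
  have e0 : 2 * T.Z.dim + 1 = (2 * n) + 3 := by omega
  have t2 : T.Z.tt φ (2 * n + 2) = (q : ℂ) ^ (n + 1) := by
    have h3 := FrobVariety.tt_lefschetz (X := T.Z) hg (le_refl T.Z.dim)
    rw [Nat.sub_self, FrobVariety.tt_zero hg, mul_one] at h3
    rw [show 2 * n + 2 = T.Z.dim + T.Z.dim by omega, h3, hn, hq]
    push_cast
    rfl
  have t1 : T.Z.tt φ (2 * n + 1) = (q : ℂ) ^ n * T.Z.tt φ 1 := by
    have h3 := FrobVariety.tt_lefschetz (X := T.Z) hg (j := n) (by omega)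
    rw [show T.Z.dim + n = 2 * n + 1 by omega, show T.Z.dim - n = 1 by omega] at h3
    rw [h3, hq]
    push_cast
    rfl
  have t0 : T.Z.tt φ (2 * n) = (q : ℂ) ^ (n - 1) * T.Z.tt φ 2 := by
    have h3 := FrobVariety.tt_lefschetz (X := T.Z) hg (j := n - 1) (by omega)
    rw [show T.Z.dim + (n - 1) = 2 * n by omega, show T.Z.dim - (n - 1) = 2 by omega] at h3
    rw [h3, hq]
    push_cast
    rfl
  rw [e0, sum_range_succ, sum_range_succ, sum_range_succ, t2, t1, t0] at h1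
  have h4 := FrobVariety.sum_norm_le (X := T.Z) hg (m := 2 * n) (by omega) (b := 2 * n - 1) (by omega)
  set E := ∑ a ∈ range (2 * n), (-1) ^ a * T.Z.tt φ a with hE
  have s2 : ((-1 : ℂ)) ^ (2 * n + 2) = 1 := by
    rw [show 2 * n + 2 = 2 * (n + 1) by ring, pow_mul]
    norm_num
  have s1 : ((-1 : ℂ)) ^ (2 * n + 1) = -1 := by
    rw [pow_succ, pow_mul]
    norm_num
  have s0 : ((-1 : ℂ)) ^ (2 * n) = 1 := by
    rw [pow_mul]
    norm_num
  rw [s2, s1, s0] at h1
  -- real parts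
  have h5 : (Nat.card (T.ST φ) : ℝ) = E.re + q ^ (n - 1) * T.rt φ 2 - q ^ n * T.rt φ 1 + q ^ (n + 1) := by
    have h6 := congrArg Complex.re h1
    rw [Complex.ofReal_re] at h6
    rw [h6]
    have r1 : ∀ (m : ℕ) (z : ℂ), ((q : ℂ) ^ m * z).re = q ^ m * z.re := fun m z => by
      rw [← Complex.ofReal_pow, Complex.re_ofReal_mul]
    simp only [Complex.add_re, one_mul, neg_mul, Complex.neg_re, r1]
    rw [← Complex.ofReal_pow, Complex.ofReal_re]
    ring
  have h6 : |E.re| ≤ T.Z.bb * √q ^ (2 * n - 1) := (Complex.abs_re_le_norm _).trans h4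
  have h7 : (Nat.card (T.ST φ) : ℝ) / q ^ n - (q - T.rt φ 1 + T.rt φ 2 / q) = E.re / q ^ n := by
    rw [h5]
    obtain ⟨m, rfl⟩ : ∃ m, n = m + 1 := ⟨n - 1, by omega⟩
    rw [Nat.add_sub_cancel]
    field_simp
    ring
  rw [h7, abs_div, abs_of_pos (by positivity : 0 < q ^ n), div_mul_eq_mul_div, div_le_iff₀ (by positivity)]
  calc |E.re| * √q ≤ T.Z.bb * √q ^ (2 * n - 1) * √q := mul_le_mul_of_nonneg_right h6 hs0.le
    _ = T.Z.bb * √q ^ (2 * n) := by
        rw [mul_assoc, ← pow_succ]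
        congr 2
        omega
    _ = T.Z.bb * q ^ n := by
        rw [pow_mul, sq, hs]

include hg in
lemma rt_one_le : |T.rt φ 1| ≤ T.Z.betti 1 * √(Fintype.card F : ℝ) := by
  refine (Complex.abs_re_le_norm _).trans ?_
  have := FrobVariety.norm_tt_le (X := T.Z) hg 1
  rwa [pow_one] at this

include hg in
lemma rt_two_le : |T.rt φ 2| / Fintype.card F ≤ T.Z.betti 2 := by
  have hq1 : 1 < (Fintype.card F : ℝ) := FrobVariety.one_le_card' F
  rw [div_le_iff₀ (by linarith)]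
  refine (Complex.abs_re_le_norm _).trans ?_
  have := FrobVariety.norm_tt_le (X := T.Z) hg 2
  rwa [Real.sq_sqrt (by linarith)] at this

/-- the constant -/
noncomputable def cZ (T : CurveFamily A) : ℝ := 1 + T.Z.betti 1 + T.Z.betti 2 + T.Z.bb

lemma one_le_cZ : 1 ≤ T.cZ := by
  unfold cZ
  have := T.Z.bb_nonneg
  have h1 : (0 : ℝ) ≤ T.Z.betti 1 := Nat.cast_nonneg _
  have h2 : (0 : ℝ) ≤ T.Z.betti 2 := Nat.cast_nonneg _
  linarith

include hg hn in
lemma aa_near : |T.aa φ - (1 + T.rt φ 1 - T.rt φ 2 / Fintype.card F)| * √(Fintype.card F : ℝ) ≤ T.Z.bb := by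
  have h1 := count_Z hg hn
  unfold aa
  rw [show T.Z.dim - 1 = n by omega]
  rw [← abs_neg] at h1
  refine le_trans (le_of_eq ?_) h1
  congr 2
  ring

include hg hn in
lemma aa_le : |T.aa φ| ≤ T.cZ * √(Fintype.card F : ℝ) := by
  have h1 := aa_near hg hn
  set q : ℝ := (Fintype.card F : ℝ) with hq
  have hq1 : 1 < q := FrobVariety.one_le_card' F
  have hs1 : 1 ≤ √q := Real.one_le_sqrt.2 hq1.le
  have h2 : |T.aa φ - (1 + T.rt φ 1 - T.rt φ 2 / q)| ≤ T.Z.bb :=
    (le_mul_of_one_le_right (abs_nonneg _) hs1).trans h1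
  have h3 := rt_one_le (T := T) hg
  have h4 : |T.rt φ 2 / q| ≤ T.Z.betti 2 := by
    rw [abs_div, abs_of_pos (by linarith : 0 < q)]
    exact rt_two_le hg
  have h5 : |T.aa φ| ≤ |T.aa φ - (1 + T.rt φ 1 - T.rt φ 2 / q)| + (1 + |T.rt φ 1| + |T.rt φ 2 / q|) := by
    have e : T.aa φ = (T.aa φ - (1 + T.rt φ 1 - T.rt φ 2 / q)) + ((1 + T.rt φ 1) - T.rt φ 2 / q) := by ring
    calc |T.aa φ| = |(T.aa φ - (1 + T.rt φ 1 - T.rt φ 2 / q)) + ((1 + T.rt φ 1) - T.rt φ 2 / q)| := by
          rw [← e]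
      _ ≤ _ := by
          refine (abs_add_le _ _).trans (add_le_add le_rfl ?_)
          refine (abs_sub _ _).trans (add_le_add ?_ le_rfl)
          exact (abs_add_le _ _).trans (by rw [abs_one])
  have h6 := T.Z.bb_nonneg
  have h7 : (0 : ℝ) ≤ T.Z.betti 2 := Nat.cast_nonneg _
  unfold cZ
  nlinarith [mul_le_mul_of_nonneg_left hs1 h6, mul_le_mul_of_nonneg_left hs1 h7]

include hg hn in
lemma z_near : |(Nat.card (T.ST φ) : ℝ) / (Fintype.card F : ℝ) ^ n - Fintype.card F| ≤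
    (1 + T.cZ) * √(Fintype.card F : ℝ) := by
  have h1 := aa_le hg hn
  have hq1 : 1 < (Fintype.card F : ℝ) := FrobVariety.one_le_card' F
  have hs1 : 1 ≤ √(Fintype.card F : ℝ) := Real.one_le_sqrt.2 hq1.le
  have e : (Nat.card (T.ST φ) : ℝ) / (Fintype.card F : ℝ) ^ n - Fintype.card F = 1 - T.aa φ := by
    unfold aa
    rw [show T.Z.dim - 1 = n by omega]
    ring
  rw [e]
  refine (abs_sub _ _).trans ?_
  rw [abs_one]
  linarith

include hg hn in
lemma z_le : (Nat.card (T.ST φ) : ℝ) / (Fintype.card F : ℝ) ^ n ≤ (2 + T.cZ) * Fintype.card F := by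
  have h1 := z_near hg hn
  set q : ℝ := (Fintype.card F : ℝ) with hq
  have hq1 : 1 < q := FrobVariety.one_le_card' F
  have hs1 : 1 ≤ √q := Real.one_le_sqrt.2 hq1.le
  have hs : √q * √q = q := Real.mul_self_sqrt (by linarith)
  have h2 : √q ≤ q := by nlinarith
  have h3 := one_le_cZ (T := T)
  have h4 := le_abs_self ((Nat.card (T.ST φ) : ℝ) / q ^ n - q)
  nlinarith [mul_le_mul_of_nonneg_left h2 (by linarith : 0 ≤ 1 + T.cZ)]

include hg hn in
lemma ss_near : |T.ss φ - Fintype.card F| ≤ (3 + 2 * T.cZ) * √(Fintype.card F : ℝ) := by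
  have h1 := z_near hg hn
  have h2 := z_le hg hn
  have h1n := one_le_n hn
  set q : ℝ := (Fintype.card F : ℝ) with hq
  have hq1 : 1 < q := FrobVariety.one_le_card' F
  have hs1 : 1 ≤ √q := Real.one_le_sqrt.2 hq1.le
  have h3 := one_le_cZ (T := T)
  have e : T.ss φ - q = ((Nat.card (T.ST φ) : ℝ) / q ^ n - q) - (Nat.card (T.ST φ) : ℝ) / q ^ n / q ^ n := by
    unfold ss
    rw [show T.Z.dim - 1 = n by omega]
    field_simp
    ring
  rw [e]
  refine (abs_sub _ _).trans ?_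
  have h4 : |(Nat.card (T.ST φ) : ℝ) / q ^ n / q ^ n| ≤ 2 + T.cZ := by
    rw [abs_of_nonneg (by positivity), div_le_iff₀ (by positivity)]
    refine h2.trans ?_
    refine mul_le_mul_of_nonneg_left ?_ (by linarith)
    calc q = q ^ 1 := (pow_one q).symm
      _ ≤ q ^ n := pow_le_pow_right₀ hq1.le h1n
  nlinarith [mul_le_mul_of_nonneg_left hs1 (by linarith : 0 ≤ 2 + T.cZ)]

end asymptotics

end Pool.Agent.L0h11.CurveFamily
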