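import Mathlib
import Pool.Agent.L0h11.N.Cn

/-!
# The estimate for a point of the base
-/

set_option autoImplicit false
set_option linter.all false

namespace Pool.Agent.L0h11.CurveFamily

open Finset
open Pool.Agent.TH958.An
open Pool.Agent.L0h11.TF (evf evf_apply indep_forms fibreCount_eq)
open Pool.Agent.L0h11.NA
open Pool.Agent.L0h11.SectionPower (zeros_le exists_maximal totalDegree_map_le')
open scoped LinearAlgebra.Projectivization

variable {A : Type} [CommRing A] (T : CurveFamily A)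

/-- good reduction -/
lemma good_of_model {N₁ : T.B} (hN : T.IsModel N₁) {F : Type} [Field F] [Finite F] (φ : A →+* F)
    (h : MvPolynomial.map φ N₁ ≠ 0) : φ T.Z.good ≠ 0 := by
  obtain ⟨m, hm, hp⟩ := exists_maximal (k := F) h
  let _ : Field (MvPolynomial T.Coeff F ⧸ m) := Ideal.Quotient.field m
  have h1 : Module.Finite F (MvPolynomial T.Coeff F ⧸ m) :=
    finite_of_finite_type_of_isJacobsonRing F (MvPolynomial T.Coeff F ⧸ m)
  have h2 : Finite (MvPolynomial T.Coeff F ⧸ m) := Module.finite_of_finite F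
  obtain ⟨g, hg⟩ := hN.2
  have h3 := hg (MvPolynomial T.Coeff F ⧸ m) ((Ideal.Quotient.mk m).comp (MvPolynomial.map φ)) (by
    rw [RingHom.comp_apply]
    intro h0
    exact hp (Ideal.Quotient.eq_zero_iff_mem.1 h0))
  intro h0
  apply h3.1
  rw [RingHom.comp_apply, MvPolynomial.map_C, h0, map_zero, map_zero]

lemma pt_apply {F : Type} [Field F] [Fintype F] (φ : A →+* F) (t : T.Coeff → F) (N₁ : T.B) :
    T.pt φ t N₁ = MvPolynomial.eval t (MvPolynomial.map φ N₁) := by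
  rw [MvPolynomial.eval_map]
  rfl

open Classical in
lemma bad_le {F : Type} [Field F] [Fintype F] (φ : A →+* F) {N₁ : T.B}
    (h : MvPolynomial.map φ N₁ ≠ 0) :
    ((univ.filter fun t : T.Coeff → F => ¬ T.pt φ t N₁ ≠ 0).card : ℝ) * Fintype.card F ≤
      N₁.totalDegree * Fintype.card (T.Coeff → F) := by
  have h1 := Pool.Agent.L0h11.SectionPower.zeros_le (F := F) (σ := T.Coeff) (p := MvPolynomial.map φ N₁) h
  rw [Nat.card_eq_fintype_card, Fintype.card_subtype] at h1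
  have h2 : (univ.filter fun t : T.Coeff → F => ¬ T.pt φ t N₁ ≠ 0) =
      univ.filter fun t : T.Coeff → F => MvPolynomial.eval t (MvPolynomial.map φ N₁) = 0 := by
    ext t
    rw [mem_filter, mem_filter, pt_apply, not_not]
  rw [h2]
  refine h1.trans ?_
  rw [Fintype.card_fun]
  push_cast
  refine mul_le_mul_of_nonneg_right ?_ (by positivity)
  exact_mod_cast totalDegree_map_le' φ N₁

/-- the main term at a point of `Spec A` -/
noncomputable def mt {F : Type} [Field F] [Fintype F] (φ : A →+* F) : ℝ :=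
  T.rt φ 1 - T.rt φ 2 / Fintype.card F - T.r * (T.rt φ 1 ^ 2 / Fintype.card F) + (1 - T.r)

/-- the constants -/
noncomputable def KF (T : CurveFamily A) : ℝ := 8 * T.cZ ^ 4 + 4096 * (3 + T.cZ) ^ 2

/-- the constants -/
noncomputable def KP (T : CurveFamily A) (g D : ℝ) : ℝ :=
  KC T.r (3 + 2 * T.cZ) T.KF (2 * g) D + (T.Z.bb + 2 * T.r * T.cZ ^ 2)

section
variable {T} {F : Type} [Field F] [Fintype F] {φ : A →+* F} (hg : φ T.Z.good ≠ 0)
include hg

lemma near_mt {n : ℕ} (hn : T.Z.dim = n + 1) :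
    |(T.aa φ - T.r * (T.aa φ ^ 2 / Fintype.card F + 1)) - T.mt φ| * √(Fintype.card F : ℝ) ≤
      T.Z.bb + 2 * T.r * T.cZ ^ 2 := by
  have h1 := aa_near hg hn
  have h2 := aa_le hg hn
  have h3 := rt_one_le (T := T) hg
  have h4 := rt_two_le (T := T) hg
  set q : ℝ := (Fintype.card F : ℝ) with hq
  have hq1 : 1 < q := FrobVariety.one_le_card' F
  have hs1 : 1 ≤ √q := Real.one_le_sqrt.2 hq1.le
  have hs : √q * √q = q := Real.mul_self_sqrt (by linarith)
  have hb := T.Z.bb_nonneg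
  have hb1 : (0 : ℝ) ≤ T.Z.betti 1 := Nat.cast_nonneg _
  have hb2 : (0 : ℝ) ≤ T.Z.betti 2 := Nat.cast_nonneg _
  have hcz := one_le_cZ (T := T)
  have hr : (0 : ℝ) ≤ T.r := Nat.cast_nonneg _
  have h4' : |T.rt φ 2 / q| ≤ T.Z.betti 2 := by
    rw [abs_div, abs_of_pos (by linarith : 0 < q)]
    exact h4
  have h5 : |T.aa φ - T.rt φ 1| ≤ T.cZ := by
    have h6 : |T.aa φ - (1 + T.rt φ 1 - T.rt φ 2 / q)| ≤ T.Z.bb :=
      (le_mul_of_one_le_right (abs_nonneg _) hs1).trans h1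
    have e : T.aa φ - T.rt φ 1 = (T.aa φ - (1 + T.rt φ 1 - T.rt φ 2 / q)) + (1 - T.rt φ 2 / q) := by ring
    rw [e]
    refine (abs_add_le _ _).trans ?_
    have h7 := abs_sub (1 : ℝ) (T.rt φ 2 / q)
    rw [abs_one] at h7
    unfold cZ
    linarith
  have h6 : |T.aa φ + T.rt φ 1| ≤ 2 * T.cZ * √q := by
    refine (abs_add_le _ _).trans ?_
    have h7 : (T.Z.betti 1 : ℝ) * √q ≤ T.cZ * √q := by
      refine mul_le_mul_of_nonneg_right ?_ (by positivity)
      unfold cZ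
      linarith
    linarith
  have h7 : |T.aa φ ^ 2 - T.rt φ 1 ^ 2| ≤ 2 * T.cZ ^ 2 * √q := by
    have e : T.aa φ ^ 2 - T.rt φ 1 ^ 2 = (T.aa φ - T.rt φ 1) * (T.aa φ + T.rt φ 1) := by ring
    rw [e, abs_mul]
    calc _ ≤ T.cZ * (2 * T.cZ * √q) := mul_le_mul h5 h6 (abs_nonneg _) (by linarith)
      _ = _ := by ring
  have e : (T.aa φ - T.r * (T.aa φ ^ 2 / q + 1)) - T.mt φ =
      (T.aa φ - (1 + T.rt φ 1 - T.rt φ 2 / q)) - T.r * ((T.aa φ ^ 2 - T.rt φ 1 ^ 2) / q) := by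
    unfold mt
    ring
  rw [e]
  have h8 : |(T.r : ℝ) * ((T.aa φ ^ 2 - T.rt φ 1 ^ 2) / q)| * √q ≤ 2 * T.r * T.cZ ^ 2 := by
    rw [abs_mul, abs_div, abs_of_nonneg hr, abs_of_pos (by linarith : 0 < q), mul_assoc, div_mul_eq_mul_div]
    calc _ ≤ (T.r : ℝ) * ((2 * T.cZ ^ 2 * √q) * √q / q) :=
          mul_le_mul_of_nonneg_left (div_le_div_of_nonneg_right
            (mul_le_mul_of_nonneg_right h7 (by positivity)) (by linarith)) hr
      _ = _ := by
          rw [mul_assoc (2 * T.cZ ^ 2), hs]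
          field_simp
  calc _ ≤ (|T.aa φ - (1 + T.rt φ 1 - T.rt φ 2 / q)| + |(T.r : ℝ) * ((T.aa φ ^ 2 - T.rt φ 1 ^ 2) / q)|) * √q :=
        mul_le_mul_of_nonneg_right (abs_sub _ _) (by positivity)
    _ = |T.aa φ - (1 + T.rt φ 1 - T.rt φ 2 / q)| * √q +
        |(T.r : ℝ) * ((T.aa φ ^ 2 - T.rt φ 1 ^ 2) / q)| * √q := by ring
    _ ≤ _ := add_le_add h1 h8

lemma mt_le : |T.mt φ| ≤ (3 + T.r * (2 + T.cZ)) * T.cZ * √(Fintype.card F : ℝ) := by
  have h3 := rt_one_le (T := T) hg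
  have h4 := rt_two_le (T := T) hg
  set q : ℝ := (Fintype.card F : ℝ) with hq
  have hq1 : 1 < q := FrobVariety.one_le_card' F
  have hs1 : 1 ≤ √q := Real.one_le_sqrt.2 hq1.le
  have hs : √q * √q = q := Real.mul_self_sqrt (by linarith)
  have hb := T.Z.bb_nonneg
  have hb1 : (0 : ℝ) ≤ T.Z.betti 1 := Nat.cast_nonneg _
  have hb2 : (0 : ℝ) ≤ T.Z.betti 2 := Nat.cast_nonneg _
  have hcz := one_le_cZ (T := T)
  have hr : (0 : ℝ) ≤ T.r := Nat.cast_nonneg _
  have h4' : |T.rt φ 2 / q| ≤ T.cZ := by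
    rw [abs_div, abs_of_pos (by linarith : 0 < q)]
    refine h4.trans ?_
    unfold cZ
    linarith
  have h3' : |T.rt φ 1| ≤ T.cZ * √q := by
    refine h3.trans (mul_le_mul_of_nonneg_right ?_ (by positivity))
    unfold cZ
    linarith
  have h5 : |(T.r : ℝ) * (T.rt φ 1 ^ 2 / q)| ≤ T.r * T.cZ ^ 2 := by
    rw [abs_mul, abs_div, abs_of_nonneg hr, abs_of_pos (by linarith : 0 < q), abs_pow]
    refine mul_le_mul_of_nonneg_left ?_ hr
    rw [div_le_iff₀ (by linarith)]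
    calc |T.rt φ 1| ^ 2 ≤ (T.cZ * √q) ^ 2 := pow_le_pow_left₀ (abs_nonneg _) h3' 2
      _ = T.cZ ^ 2 * q := by rw [mul_pow, sq √q, hs]
  have h6 : |(1 : ℝ) - T.r| ≤ 1 + T.r := by
    refine (abs_sub _ _).trans ?_
    rw [abs_one, abs_of_nonneg hr]
  unfold mt
  have h7 : |T.rt φ 1 - T.rt φ 2 / q - T.r * (T.rt φ 1 ^ 2 / q) + (1 - T.r)| ≤
      T.cZ * √q + T.cZ + T.r * T.cZ ^ 2 + (1 + T.r) := by
    refine (abs_add_le _ _).trans (add_le_add ?_ h6)
    refine (abs_sub _ _).trans (add_le_add ?_ h5)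
    exact (abs_sub _ _).trans (add_le_add h3' h4')
  refine h7.trans ?_
  have h8 : T.cZ ≤ T.cZ * √q := le_mul_of_one_le_right (by linarith) hs1
  have h9 : (T.r : ℝ) * T.cZ ^ 2 ≤ T.r * T.cZ ^ 2 * √q := le_mul_of_one_le_right (by positivity) hs1
  have h10 : (T.r : ℝ) ≤ T.r * T.cZ * √q := by
    calc (T.r : ℝ) ≤ T.r * T.cZ := le_mul_of_one_le_right hr hcz
      _ ≤ _ := le_mul_of_one_le_right (by positivity) hs1
  have h11 : (1 : ℝ) ≤ T.cZ * √q := hcz.trans h8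
  have e : (3 + T.r * (2 + T.cZ)) * T.cZ * √q =
      3 * (T.cZ * √q) + 2 * (T.r * T.cZ * √q) + T.r * T.cZ ^ 2 * √q := by ring
  rw [e]
  have h12 : 0 ≤ (T.r : ℝ) * T.cZ * √q := by positivity
  linarith

open Classical in
/-- **The sum over the points of the base above a point of `Spec A`.** -/
theorem local_main {N₁ : T.B} (h : MvPolynomial.map φ N₁ ≠ 0) {g : ℕ}
    (hW : ∀ Φ : T.B →+* F, Φ N₁ ≠ 0 → |T.traceOne Φ| ≤ 2 * g * √(Nat.card F : ℝ)) :
    |∑ t with T.pt φ t N₁ ≠ 0, (Nat.card (T.Points (T.pt φ t)) / (Fintype.card F : ℝ)) ^ T.r *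
      T.traceOne (T.pt φ t) - (Fintype.card F : ℝ) ^ T.N * T.mt φ| * √√(Fintype.card F : ℝ) ≤
      T.KP g N₁.totalDegree * (Fintype.card F : ℝ) ^ T.N := by
  obtain ⟨n, hn⟩ : ∃ n, T.Z.dim = n + 1 := ⟨T.Z.dim - 1, by have := T.two_le; omega⟩
  have h1 := T.sum_tau φ
  have h2 := T.sum_tau_sq φ
  have h3 := T.sum_tau_four φ
  have ha := aa_le hg hn
  have hs' := ss_near hg hn
  have hz := z_le hg hn
  have hnear := near_mt hg hn
  have hbad := T.bad_le φ h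
  have hcz := one_le_cZ (T := T)
  have hV : (Fintype.card (T.Coeff → F) : ℝ) = (Fintype.card F : ℝ) ^ T.N := by
    rw [Fintype.card_fun]
    push_cast
    rfl
  have hW' : ∀ t, T.pt φ t N₁ ≠ 0 → |T.traceOne (T.pt φ t)| ≤ 2 * g * √(Fintype.card F : ℝ) := by
    intro t ht
    have := hW _ ht
    rwa [Nat.card_eq_fintype_card] at this
  have hcast : (Nat.card F : ℝ) = Fintype.card F := by rw [Nat.card_eq_fintype_card]
  set q : ℝ := (Fintype.card F : ℝ) with hq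
  have hq1 : 1 < q := FrobVariety.one_le_card' F
  have hs1 : 1 ≤ √q := Real.one_le_sqrt.2 hq1.le
  have hs : √q * √q = q := Real.mul_self_sqrt (by linarith)
  set l : ℝ := √√q with hl
  have hl1 : 1 ≤ l := Real.one_le_sqrt.2 hs1
  have hl2 : l ^ 2 = √q := by rw [hl, Real.sq_sqrt (by positivity)]
  have hl4 : l ^ 4 = q := by
    rw [show l ^ 4 = (l ^ 2) ^ 2 by ring, hl2, sq, hs]
  have hll : l ≤ √q := by
    rw [← hl2]
    nlinarith
  have hq0 : 0 < q := by linarith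
  -- the fourth moment
  have h4 : ∑ t, T.traceOne (T.pt φ t) ^ 4 ≤ Fintype.card (T.Coeff → F) * (T.KF * (l ^ 4) ^ 2) := by
    refine h3.trans (mul_le_mul_of_nonneg_left ?_ (Nat.cast_nonneg _))
    rw [hl4, show T.Z.dim - 1 = n by omega]
    have e1 : T.aa φ ^ 4 ≤ T.cZ ^ 4 * q ^ 2 := by
      have e2 : |T.aa φ| ^ 4 ≤ (T.cZ * √q) ^ 4 := pow_le_pow_left₀ (abs_nonneg _) ha 4
      have e3 : |T.aa φ| ^ 4 = T.aa φ ^ 4 := by
        rw [← abs_pow]
        exact abs_of_nonneg (by positivity)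
      rw [e3] at e2
      refine e2.trans (le_of_eq ?_)
      rw [mul_pow, show √q ^ 4 = (√q * √q) ^ 2 by ring, hs]
    have e2 : (1 + (Nat.card (T.ST φ) : ℝ) / q ^ n) ^ 2 ≤ ((3 + T.cZ) * q) ^ 2 := by
      refine pow_le_pow_left₀ (by positivity) ?_ 2
      linarith
    unfold KF
    calc _ ≤ 8 * (T.cZ ^ 4 * q ^ 2) + 4096 * ((3 + T.cZ) * q) ^ 2 := by linarith
      _ = _ := by ring
  have hK : 0 ≤ T.KF := by
    unfold KF
    positivity
  have hcore := Pool.Agent.L0h11.NA.core (fun t : T.Coeff → F => T.traceOne (T.pt φ t)) (fun t : T.Coeff → F => T.pt φ t N₁ ≠ 0) T.r (l := l)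
    (a := T.aa φ) (s := T.ss φ) (c := 3 + 2 * T.cZ) (K := T.KF) (G := 2 * g) (D := N₁.totalDegree)
    hl1 (by linarith) hK (by positivity) (Nat.cast_nonneg _) h1 h2 h4
    (by rw [hl4, hl2]; exact hs')
    (by
      rw [hl2]
      refine ha.trans (mul_le_mul_of_nonneg_right ?_ (by positivity))
      linarith)
    (fun t ht => by rw [hl2]; exact hW' t ht)
    (by rw [hl4]; convert hbad)
  rw [hl4, hV] at hcore
  have e1 : ∀ t, (Nat.card (T.Points (T.pt φ t)) / q) ^ T.r * T.traceOne (T.pt φ t) =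
      (1 + (1 - T.traceOne (T.pt φ t)) / q) ^ T.r * T.traceOne (T.pt φ t) := by
    intro t
    congr 2
    unfold traceOne
    rw [hcast]
    field_simp
    ring
  rw [sum_congr rfl fun t _ => e1 t]
  set S₀ := ∑ t with T.pt φ t N₁ ≠ 0, (1 + (1 - T.traceOne (T.pt φ t)) / q) ^ T.r *
    T.traceOne (T.pt φ t) with hS
  have hqN : 0 < q ^ T.N := by positivity
  have hcore' : |S₀ - q ^ T.N * (T.aa φ - T.r * (T.aa φ ^ 2 / q + 1))| * l ≤
      KC T.r (3 + 2 * T.cZ) T.KF (2 * g) N₁.totalDegree * q ^ T.N := by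
    rw [hS]
    convert hcore
  have e2 : S₀ - q ^ T.N * T.mt φ = (S₀ - q ^ T.N * (T.aa φ - T.r * (T.aa φ ^ 2 / q + 1))) +
      q ^ T.N * ((T.aa φ - T.r * (T.aa φ ^ 2 / q + 1)) - T.mt φ) := by ring
  rw [e2]
  have e3 : |q ^ T.N * ((T.aa φ - T.r * (T.aa φ ^ 2 / q + 1)) - T.mt φ)| * l ≤
      (T.Z.bb + 2 * T.r * T.cZ ^ 2) * q ^ T.N := by
    rw [abs_mul, abs_of_pos hqN]
    calc _ ≤ q ^ T.N * |(T.aa φ - T.r * (T.aa φ ^ 2 / q + 1)) - T.mt φ| * √q :=
          mul_le_mul_of_nonneg_left hll (by positivity)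
      _ = q ^ T.N * (|(T.aa φ - T.r * (T.aa φ ^ 2 / q + 1)) - T.mt φ| * √q) := by ring
      _ ≤ q ^ T.N * (T.Z.bb + 2 * T.r * T.cZ ^ 2) := mul_le_mul_of_nonneg_left hnear hqN.le
      _ = _ := by ring
  calc _ ≤ (|S₀ - q ^ T.N * (T.aa φ - T.r * (T.aa φ ^ 2 / q + 1))| +
        |q ^ T.N * ((T.aa φ - T.r * (T.aa φ ^ 2 / q + 1)) - T.mt φ)|) * l :=
        mul_le_mul_of_nonneg_right (abs_add_le _ _) (by linarith)
    _ = |S₀ - q ^ T.N * (T.aa φ - T.r * (T.aa φ ^ 2 / q + 1))| * l +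
        |q ^ T.N * ((T.aa φ - T.r * (T.aa φ ^ 2 / q + 1)) - T.mt φ)| * l := by ring
    _ ≤ _ := by
        unfold KP
        rw [add_mul]
        exact add_le_add hcore' e3

end

lemma KP_nonneg (g D : ℝ) (hg : 0 ≤ g) (hD : 0 ≤ D) : 0 ≤ T.KP g D := by
  have hb := T.Z.bb_nonneg
  have hcz := one_le_cZ (T := T)
  unfold KP KC KF
  positivity

end Pool.Agent.L0h11.CurveFamily
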