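import Mathlib
import Pool.Agent.L0h11.N.Pt
import Pool.Agent.R410.BS.Cod2
import Pool.Agent.H341R2.NF.Orth

/-!
# The averages over the points of the base
-/

set_option autoImplicit false
set_option linter.all false

namespace Pool.Agent.L0h11.CurveFamily

open Finset NumberField IsDedekindDomain
open Pool.Agent.TH958.An
open Pool.Agent.L0h11.NA
open Pool.Agent.L0h11.CC (homEquiv)
open scoped LinearAlgebra.Projectivization

variable {A : Type} [CommRing A] (T : CurveFamily A)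

section sums

variable {F : Type} [Field F]

lemma finPts [Finite F] (Φ : T.B →+* F) : Finite (T.Points Φ) :=
  Finite.of_injective (fun p => p.1.rep) fun p p' h => by
    apply Subtype.ext
    rw [← Projectivization.mk_rep p.1, ← Projectivization.mk_rep p'.1]
    congr 1

open Classical in
/-- the sum over the points of the base -/
lemma sum_points [Fintype F] (hA : Finite (A →+* F)) (N₁ : T.B) (C : (A →+* F) → Prop) :
    ∑ᶠ b : {b : Σ Φ : T.B →+* F, (Fin T.r → T.Points Φ) //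
      C (b.1.comp MvPolynomial.C) ∧ b.1 N₁ ≠ 0}, T.traceOne b.1.1 =
    ∑ᶠ φ : {φ : A →+* F // C φ ∧ MvPolynomial.map φ N₁ ≠ 0}, ∑ t with T.pt φ.1 t N₁ ≠ 0,
      (Nat.card (T.Points (T.pt φ.1 t)) : ℝ) ^ T.r * T.traceOne (T.pt φ.1 t) := by
  have hB : Finite (T.B →+* F) := Finite.of_equiv _ (homEquiv (R₀ := A) (I := T.Coeff) F).symm
  letI := Fintype.ofFinite (A →+* F)
  letI := Fintype.ofFinite (T.B →+* F)
  letI := fun Φ : T.B →+* F => (T.finPts Φ)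
  letI := fun Φ : T.B →+* F => Fintype.ofFinite (T.Points Φ)
  have h1 : ∑ᶠ b : {b : Σ Φ : T.B →+* F, (Fin T.r → T.Points Φ) //
      C (b.1.comp MvPolynomial.C) ∧ b.1 N₁ ≠ 0}, T.traceOne b.1.1 =
      ∑ b : Σ Φ : T.B →+* F, (Fin T.r → T.Points Φ),
        if C (b.1.comp MvPolynomial.C) ∧ b.1 N₁ ≠ 0 then T.traceOne b.1 else 0 := by
    rw [finsum_eq_sum_of_fintype, ← sum_filter]
    rw [sum_subtype (univ.filter fun b : Σ Φ : T.B →+* F, (Fin T.r → T.Points Φ) =>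
      C (b.1.comp MvPolynomial.C) ∧ b.1 N₁ ≠ 0)
      (p := fun b => C (b.1.comp MvPolynomial.C) ∧ b.1 N₁ ≠ 0)]
    intro b
    rw [mem_filter]
    simp
  have h2 : ∑ᶠ φ : {φ : A →+* F // C φ ∧ MvPolynomial.map φ N₁ ≠ 0}, ∑ t with T.pt φ.1 t N₁ ≠ 0,
      (Nat.card (T.Points (T.pt φ.1 t)) : ℝ) ^ T.r * T.traceOne (T.pt φ.1 t) =
      ∑ φ : A →+* F, if C φ ∧ MvPolynomial.map φ N₁ ≠ 0 then ∑ t with T.pt φ t N₁ ≠ 0,
        (Nat.card (T.Points (T.pt φ t)) : ℝ) ^ T.r * T.traceOne (T.pt φ t) else 0 := by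
    rw [finsum_eq_sum_of_fintype, ← sum_filter]
    rw [sum_subtype (univ.filter fun φ : A →+* F => C φ ∧ MvPolynomial.map φ N₁ ≠ 0)
      (p := fun φ => C φ ∧ MvPolynomial.map φ N₁ ≠ 0)]
    intro b
    rw [mem_filter]
    simp
  rw [h1, h2, Fintype.sum_sigma]
  have h3 : ∀ Φ : T.B →+* F, ∑ p : Fin T.r → T.Points Φ,
      (if C (Φ.comp MvPolynomial.C) ∧ Φ N₁ ≠ 0 then T.traceOne Φ else 0) =
      if C (Φ.comp MvPolynomial.C) ∧ Φ N₁ ≠ 0 then (Nat.card (T.Points Φ) : ℝ) ^ T.r * T.traceOne Φ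
        else 0 := by
    intro Φ
    rw [sum_const, card_univ, Fintype.card_fun, Fintype.card_fin, nsmul_eq_mul, mul_ite, mul_zero,
      Nat.card_eq_fintype_card]
    push_cast
    rfl
  rw [sum_congr rfl fun Φ _ => h3 Φ, ← (homEquiv (R₀ := A) (I := T.Coeff) F).symm.sum_comp,
    Fintype.sum_prod_type]
  refine sum_congr rfl fun φ _ => ?_
  have h4 : ∀ t : T.Coeff → F, (homEquiv (R₀ := A) (I := T.Coeff) F).symm (φ, t) = T.pt φ t :=
    fun t => rfl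
  simp only [h4, pt_comp]
  by_cases hC : C φ
  · by_cases hm : MvPolynomial.map φ N₁ = 0
    · rw [if_neg (fun h => h.2 hm)]
      refine sum_eq_zero fun t _ => ?_
      rw [if_neg]
      rintro ⟨-, h5⟩
      apply h5
      rw [pt_apply, hm, map_zero]
    · rw [if_pos ⟨hC, hm⟩, sum_filter]
      refine sum_congr rfl fun t _ => ?_
      by_cases ht : T.pt φ t N₁ = 0
      · rw [if_neg (fun h => h.2 ht), if_neg (fun h => h ht)]
      · rw [if_pos ⟨hC, ht⟩, if_pos ht]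
  · rw [if_neg (fun h => hC h.1)]
    exact sum_eq_zero fun t _ => if_neg fun h => hC h.1

/-- The sum over the points of `Spec A`. -/
lemma sum_near [Fintype F] (hA : Finite (A →+* F)) {N₁ : T.B} (hN : T.IsModel N₁) {g : ℕ}
    (hW : ∀ Φ : T.B →+* F, Φ N₁ ≠ 0 → |T.traceOne Φ| ≤ 2 * g * √(Nat.card F : ℝ))
    (C : (A →+* F) → Prop) :
    |(∑ᶠ b : {b : Σ Φ : T.B →+* F, (Fin T.r → T.Points Φ) //
      C (b.1.comp MvPolynomial.C) ∧ b.1 N₁ ≠ 0}, T.traceOne b.1.1) / (Fintype.card F : ℝ) ^ (T.N + T.r) -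
      ∑ᶠ φ : {φ : A →+* F // C φ ∧ MvPolynomial.map φ N₁ ≠ 0}, T.mt φ.1| * √√(Fintype.card F : ℝ) ≤
      T.KP g N₁.totalDegree * Nat.card (A →+* F) := by
  classical
  rw [sum_points T hA]
  letI := Fintype.ofFinite (A →+* F)
  letI := Fintype.ofFinite {φ : A →+* F // C φ ∧ MvPolynomial.map φ N₁ ≠ 0}
  have hq1 : 1 < (Fintype.card F : ℝ) := FrobVariety.one_le_card' F
  have hKP := T.KP_nonneg g N₁.totalDegree (Nat.cast_nonneg _) (Nat.cast_nonneg _)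
  have hmain := fun (φ : A →+* F) (h : MvPolynomial.map φ N₁ ≠ 0) =>
    local_main (T := T) (φ := φ) (T.good_of_model hN φ h) h hW
  set q : ℝ := (Fintype.card F : ℝ) with hq
  rw [finsum_eq_sum_of_fintype, finsum_eq_sum_of_fintype, sum_div, ← sum_sub_distrib]
  have h1 : ∀ φ : {φ : A →+* F // C φ ∧ MvPolynomial.map φ N₁ ≠ 0},
      |(∑ t with T.pt φ.1 t N₁ ≠ 0, (Nat.card (T.Points (T.pt φ.1 t)) : ℝ) ^ T.r *
        T.traceOne (T.pt φ.1 t)) / q ^ (T.N + T.r) - T.mt φ.1| * √√q ≤ T.KP g N₁.totalDegree := by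
    intro φ
    have h2 := hmain φ.1 φ.2.2
    have hqN : 0 < q ^ T.N := by positivity
    have e1 : (∑ t with T.pt φ.1 t N₁ ≠ 0, (Nat.card (T.Points (T.pt φ.1 t)) : ℝ) ^ T.r *
        T.traceOne (T.pt φ.1 t)) / q ^ (T.N + T.r) - T.mt φ.1 =
        (∑ t with T.pt φ.1 t N₁ ≠ 0, (Nat.card (T.Points (T.pt φ.1 t)) / q) ^ T.r *
        T.traceOne (T.pt φ.1 t) - q ^ T.N * T.mt φ.1) / q ^ T.N := by
      have e2 : ∑ t with T.pt φ.1 t N₁ ≠ 0, (Nat.card (T.Points (T.pt φ.1 t)) : ℝ) ^ T.r *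
        T.traceOne (T.pt φ.1 t) = q ^ T.r * ∑ t with T.pt φ.1 t N₁ ≠ 0,
          (Nat.card (T.Points (T.pt φ.1 t)) / q) ^ T.r * T.traceOne (T.pt φ.1 t) := by
        rw [mul_sum]
        refine sum_congr rfl fun t _ => ?_
        rw [div_pow]
        field_simp
      rw [e2, pow_add]
      field_simp
    rw [e1, abs_div, abs_of_pos hqN, div_mul_eq_mul_div, div_le_iff₀ hqN]
    exact h2
  calc _ ≤ (∑ φ : {φ : A →+* F // C φ ∧ MvPolynomial.map φ N₁ ≠ 0},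
      |(∑ t with T.pt φ.1 t N₁ ≠ 0, (Nat.card (T.Points (T.pt φ.1 t)) : ℝ) ^ T.r *
        T.traceOne (T.pt φ.1 t)) / q ^ (T.N + T.r) - T.mt φ.1|) * √√q :=
        mul_le_mul_of_nonneg_right (abs_sum_le_sum_abs _ _) (by positivity)
    _ = ∑ φ : {φ : A →+* F // C φ ∧ MvPolynomial.map φ N₁ ≠ 0},
      |(∑ t with T.pt φ.1 t N₁ ≠ 0, (Nat.card (T.Points (T.pt φ.1 t)) : ℝ) ^ T.r *
        T.traceOne (T.pt φ.1 t)) / q ^ (T.N + T.r) - T.mt φ.1| * √√q := by rw [sum_mul]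
    _ ≤ ∑ φ : {φ : A →+* F // C φ ∧ MvPolynomial.map φ N₁ ≠ 0}, T.KP g N₁.totalDegree :=
        sum_le_sum fun φ _ => h1 φ
    _ = Fintype.card {φ : A →+* F // C φ ∧ MvPolynomial.map φ N₁ ≠ 0} * T.KP g N₁.totalDegree := by
        rw [sum_const, card_univ, nsmul_eq_mul]
    _ ≤ Nat.card (A →+* F) * T.KP g N₁.totalDegree := by
        refine mul_le_mul_of_nonneg_right ?_ hKP
        rw [Nat.card_eq_fintype_card]
        exact_mod_cast Fintype.card_subtype_le _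
    _ = _ := mul_comm _ _

end sums

section prime

variable {T} {k : Type} [Field k] [NumberField k] [Algebra (𝓞 k) A]

/-- the combination of the averages -/
noncomputable def mainAverage (m : ℕ) (N₁ : T.B) (v : HeightOneSpectrum (𝓞 k)) : ℝ :=
  T.averageOne m N₁ v - T.averageTwo m N₁ v - T.r * T.averageSquare m N₁ v +
    (1 - T.r) * T.baseAverage m N₁ v fun _ => 1

lemma mainAverage_eq (m : ℕ) (N₁ : T.B) (v : HeightOneSpectrum (𝓞 k))
    [Fintype (𝓞 k ⧸ v.asIdeal)] (hA : Finite (A →+* 𝓞 k ⧸ v.asIdeal)) :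
    mainAverage m N₁ v = ((Nat.card (𝓞 k ⧸ v.asIdeal) : ℝ) ^ m)⁻¹ *
    ∑ᶠ φ : {φ : A →+* 𝓞 k ⧸ v.asIdeal // φ.comp (algebraMap (𝓞 k) A) =
      Ideal.Quotient.mk v.asIdeal ∧ MvPolynomial.map φ N₁ ≠ 0}, T.mt φ.1 := by
  classical
  letI := Fintype.ofFinite {φ : A →+* 𝓞 k ⧸ v.asIdeal // φ.comp (algebraMap (𝓞 k) A) =
      Ideal.Quotient.mk v.asIdeal ∧ MvPolynomial.map φ N₁ ≠ 0}
  unfold mainAverage averageOne averageTwo averageSquare baseAverage
  simp only [finsum_eq_sum_of_fintype]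
  rw [← mul_assoc, ← mul_assoc, mul_comm (T.r : ℝ), mul_comm (1 - (T.r : ℝ)), mul_assoc, mul_assoc,
    ← mul_sub, ← mul_sub, ← mul_add]
  congr 1
  rw [mul_sum, mul_sum, ← sum_sub_distrib, ← sum_sub_distrib, ← sum_add_distrib]
  refine sum_congr rfl fun φ _ => ?_
  unfold mt rt FrobVariety.tt
  rw [← Nat.card_eq_fintype_card, mul_one]
  rfl

end prime

end Pool.Agent.L0h11.CurveFamily
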