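import Mathlib
import Pool.Agent.L0h11.N.Df

/-!
# Varieties with algebraic cohomology in the degrees one and two
-/

set_option autoImplicit false

namespace Pool.Agent.L0h11

/-- The cohomology of `Z` in the degrees one and two is algebraic, and the rank of the group of the
divisor classes over the field of fractions `M` of `A`, of transcendence degree `m`, is `ρ`: the first Betti
number is zero, and the trace of the Frobenius on `H²`, divided by `q`, is given by a rational
combination, with coefficients of sum `ρ`, of permutation representations of the Galois group of `M`, those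
on the embeddings of finite extensions `M' i` of `M`, the fields of fractions of the `A' i`. (The trace
of the Frobenius `φ` on such a representation is the number of the points of `Spec (A' i)` above `φ`.
By a theorem of Artin the Néron-Severi group has this form, with `ρ` the rank of its invariants.) -/
def FrobVariety.IsAlgebraic {A : Type} [CommRing A] (Z : FrobVariety A) (m : ℕ) (ρ : ℝ) : Prop :=
  Z.betti 1 = 0 ∧ ∃ (ι : Type) (_ : Fintype ι) (A' M' : ι → Type) (_ : ∀ i, CommRing (A' i))
    (_ : ∀ i, IsDomain (A' i)) (_ : ∀ i, Algebra.FiniteType ℤ (A' i)) (_ : ∀ i, Algebra A (A' i))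
    (_ : ∀ i, Field (M' i)) (_ : ∀ i, CharZero (M' i)) (_ : ∀ i, Algebra (A' i) (M' i))
    (a : ι → ℚ),
    (∀ i, IsFractionRing (A' i) (M' i) ∧ Algebra.trdeg ℚ (M' i) = m ∧
      Function.Injective (algebraMap A (A' i))) ∧ ∑ i, (a i : ℝ) = ρ ∧
    ∀ (F : Type) [Field F] [Finite F] (φ : A →+* F), φ Z.good ≠ 0 →
      (Z.tr 2 (RingHom.ker φ) (Nat.card F)).re / Nat.card F =
        ∑ i, (a i : ℝ) * Nat.card {ψ : A' i →+* F // ψ.comp (algebraMap A (A' i)) = φ}

end Pool.Agent.L0h11
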