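import Mathlib
import Pool.Agent.Y707.PR.Sys



/-!
# Calculus of residues of Dirichlet series over the primes of a number field
-/

set_option autoImplicit false
set_option linter.all false

namespace Pool.Agent.L0h11.NA

open NumberField IsDedekindDomain Filter Topology
open Pool.Agent.Y707.PR (HasResidue series summable_log log_le_rpow norm_term)
open Pool.Agent.H921R2.TatePole (nm two_le_nm nm_summable)

variable {k : Type} [Field k] [NumberField k] {S : Finset (HeightOneSpectrum (𝓞 k))}
  {b b' : HeightOneSpectrum (𝓞 k) → ℝ} {s₀ ρ ρ' : ℝ}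

/-- the terms -/
noncomputable abbrev term (b : HeightOneSpectrum (𝓞 k) → ℝ) (s : ℂ) (v : HeightOneSpectrum (𝓞 k)) : ℂ :=
  (b v : ℂ) * (Real.log (Ideal.absNorm v.asIdeal) : ℂ) * (Ideal.absNorm v.asIdeal : ℂ) ^ (-s)

theorem HasResidue_add (h : HasResidue S b s₀ ρ) (h' : HasResidue S b' s₀ ρ') :
    HasResidue S (fun v => b v + b' v) s₀ (ρ + ρ') := by
  obtain ⟨h1, G, hG, h2⟩ := h
  obtain ⟨h1', G', hG', h2'⟩ := h'
  have e : ∀ (s : ℂ) (v : {v : HeightOneSpectrum (𝓞 k) // v ∉ S}),
      (((b v.1 + b' v.1 : ℝ)) : ℂ) * (Real.log (Ideal.absNorm v.1.asIdeal) : ℂ) *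
        (Ideal.absNorm v.1.asIdeal : ℂ) ^ (-s) = term b s v.1 + term b' s v.1 := by
    intro s v
    rw [Complex.ofReal_add]
    ring
  refine ⟨fun s hs => ?_, fun s => G s + G' s, hG.add hG', ?_⟩
  · exact ((h1 s hs).add (h1' s hs)).congr fun v => (e s v).symm
  · filter_upwards [h2, h2'] with s h3 h4 hs
    have h5 : series S (fun v => b v + b' v) s = series S b s + series S b' s := by
      unfold series
      rw [← (h1 s hs).tsum_add (h1' s hs)]
      exact tsum_congr fun v => e s v
    rw [h5, h3 hs, h4 hs]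
    push_cast
    ring

theorem HasResidue_const_mul (c : ℝ) (h : HasResidue S b s₀ ρ) :
    HasResidue S (fun v => c * b v) s₀ (c * ρ) := by
  obtain ⟨h1, G, hG, h2⟩ := h
  have e : ∀ (s : ℂ) (v : {v : HeightOneSpectrum (𝓞 k) // v ∉ S}),
      (((c * b v.1 : ℝ)) : ℂ) * (Real.log (Ideal.absNorm v.1.asIdeal) : ℂ) *
        (Ideal.absNorm v.1.asIdeal : ℂ) ^ (-s) = (c : ℂ) * term b s v.1 := by
    intro s v
    rw [Complex.ofReal_mul]
    ring
  refine ⟨fun s hs => ?_, fun s => (c : ℂ) * G s, analyticAt_const.mul hG, ?_⟩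
  · exact ((h1 s hs).mul_left (c : ℂ)).congr fun v => (e s v).symm
  · filter_upwards [h2] with s h3 hs
    have h5 : series S (fun v => c * b v) s = (c : ℂ) * series S b s := by
      unfold series
      rw [← tsum_mul_left]
      exact tsum_congr fun v => e s v
    rw [h5, h3 hs]
    push_cast
    ring

theorem HasResidue_congr (h : HasResidue S b s₀ ρ) (hb : ∀ v, b v = b' v) (hρ : ρ = ρ') :
    HasResidue S b' s₀ ρ' := by
  subst hρ
  have : b = b' := funext hb
  rwa [← this]

theorem HasResidue_sum {ι : Type} [Fintype ι] {b : ι → HeightOneSpectrum (𝓞 k) → ℝ} {ρ : ι → ℝ}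
    (h : ∀ i, HasResidue S (b i) s₀ (ρ i)) : HasResidue S (fun v => ∑ i, b i v) s₀ (∑ i, ρ i) := by
  classical
  have h1 : ∀ s : Finset ι, HasResidue S (fun v => ∑ i ∈ s, b i v) s₀ (∑ i ∈ s, ρ i) := by
    intro s
    induction s using Finset.induction_on with
    | empty =>
      refine ⟨fun s _ => ?_, fun _ => 0, analyticAt_const, ?_⟩
      · simp only [Finset.sum_empty, Complex.ofReal_zero, zero_mul]
        exact summable_zero
      · filter_upwards with s _
        unfold series
        simp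
    | insert i s hi ih =>
      refine HasResidue_congr (HasResidue_add (h i) ih) (fun v => ?_) ?_
      · rw [Finset.sum_insert hi]
      · rw [Finset.sum_insert hi]
  exact h1 Finset.univ

/-- **Small terms have no influence.** -/
theorem HasResidue_small {K : ℝ} (hK : ∀ v, |b v| * (nm v : ℝ) ^ (1 / 4 : ℝ) ≤ K) : HasResidue S b 1 0 := by
  have hn : ∀ v : HeightOneSpectrum (𝓞 k), (0 : ℝ) < nm v := fun v => by
    have := two_le_nm v
    have h0 : 0 < nm v := by omega
    exact_mod_cast h0
  have hn1 : ∀ v : HeightOneSpectrum (𝓞 k), (1 : ℝ) ≤ nm v := fun v => by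
    have := two_le_nm v
    have h0 : 1 ≤ nm v := by omega
    exact_mod_cast h0
  have hb : ∀ v, ‖((b v : ℝ) : ℂ)‖ ≤ K := by
    intro v
    rw [Complex.norm_real, Real.norm_eq_abs]
    refine le_trans ?_ (hK v)
    exact le_mul_of_one_le_right (abs_nonneg _) (Real.one_le_rpow (hn1 v) (by norm_num))
  refine ⟨?_, series S b, ?_, ?_⟩
  · intro s hs
    exact (summable_log hb hs).subtype {v | v ∉ S}
  · have hopen : IsOpen {s : ℂ | (7 / 8 : ℝ) < s.re} := isOpen_lt continuous_const Complex.continuous_re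
    have hu : Summable fun v : {v : HeightOneSpectrum (𝓞 k) // v ∉ S} =>
        (K * 16) * (nm v.1 : ℝ) ^ (-(17 / 16 : ℝ)) :=
      ((nm_summable (K := k) (x := 17 / 16) (by norm_num)).subtype {v | v ∉ S}).mul_left _
    have h1 : DifferentiableOn ℂ (fun s => ∑' v : {v : HeightOneSpectrum (𝓞 k) // v ∉ S}, term b s v.1)
        {s : ℂ | (7 / 8 : ℝ) < s.re} := by
      refine Complex.differentiableOn_tsum_of_summable_norm hu ?_ hopen ?_
      · intro v
        have hq : ((Ideal.absNorm v.1.asIdeal : ℕ) : ℂ) ≠ 0 := by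
          have := hn v.1
          intro h0
          have h2 : ((nm v.1 : ℕ) : ℂ) = 0 := h0
          rw [Nat.cast_eq_zero] at h2
          rw [h2] at this
          simp at this
        exact (((differentiable_id.neg).const_cpow (Or.inl hq)).const_mul _).differentiableOn
      · intro v s hs
        show ‖(b v.1 : ℂ) * (Real.log (nm v.1) : ℂ) * ((nm v.1 : ℕ) : ℂ) ^ (-s)‖ ≤ _
        rw [norm_term, norm_mul, Complex.norm_real, Complex.norm_real, Real.norm_eq_abs, Real.norm_eq_abs]
        have h2 := log_le_rpow (ε := 1 / 16) (by norm_num) v.1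
        have hq := hn v.1
        have hK0 : 0 ≤ K := le_trans (by positivity) (hK v.1)
        have h3 : |b v.1| ≤ K * (nm v.1 : ℝ) ^ (-(1 / 4 : ℝ)) := by
          rw [Real.rpow_neg hq.le, ← div_eq_mul_inv, le_div_iff₀ (by positivity)]
          exact hK v.1
        have h4 : (nm v.1 : ℝ) ^ (-s.re) ≤ (nm v.1 : ℝ) ^ (-(7 / 8 : ℝ)) :=
          Real.rpow_le_rpow_of_exponent_le (hn1 v.1) (by
            have : (7 / 8 : ℝ) < s.re := hs
            linarith)
        calc |b v.1| * |Real.log (nm v.1)| * (nm v.1 : ℝ) ^ (-s.re) ≤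
            (K * (nm v.1 : ℝ) ^ (-(1 / 4 : ℝ))) * ((nm v.1 : ℝ) ^ (1 / 16 : ℝ) / (1 / 16)) *
              (nm v.1 : ℝ) ^ (-(7 / 8 : ℝ)) :=
              mul_le_mul (mul_le_mul h3 h2 (abs_nonneg _) (by positivity)) h4 (by positivity)
                (by positivity)
          _ = (K * 16) * ((nm v.1 : ℝ) ^ (-(1 / 4 : ℝ)) * (nm v.1 : ℝ) ^ (1 / 16 : ℝ) *
              (nm v.1 : ℝ) ^ (-(7 / 8 : ℝ))) := by ring
          _ = (K * 16) * (nm v.1 : ℝ) ^ (-(17 / 16 : ℝ)) := by
              rw [← Real.rpow_add hq, ← Real.rpow_add hq]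
              norm_num
    have h2 := h1.analyticAt (hopen.mem_nhds (show (7 / 8 : ℝ) < ((1 : ℝ) : ℂ).re by
      rw [Complex.ofReal_re]
      norm_num))
    exact h2
  · filter_upwards with s _
    push_cast
    ring

theorem HasResidue_near {K : ℝ} (hK : ∀ v, |b v - b' v| * (nm v : ℝ) ^ (1 / 4 : ℝ) ≤ K) :
    HasResidue S b 1 ρ ↔ HasResidue S b' 1 ρ := by
  constructor
  · intro h
    have hK' : ∀ v, |b' v - b v| * (nm v : ℝ) ^ (1 / 4 : ℝ) ≤ K := fun v => by
      rw [abs_sub_comm]
      exact hK v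
    exact HasResidue_congr (HasResidue_add h (HasResidue_small (b := fun v => b' v - b v) hK'))
      (fun v => by ring) (by ring)
  · intro h
    exact HasResidue_congr (HasResidue_add h (HasResidue_small (b := fun v => b v - b' v) hK))
      (fun v => by ring) (by ring)

end Pool.Agent.L0h11.NA
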