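import Mathlib
import Pool.Agent.L0h11.N.Av
import Pool.Agent.L0h11.N.Rs
import Pool.Agent.L0h11.Gb
import Pool.Agent.R410.NG.Res
import Pool.Agent.R410.BS.Pln

/-!
# The residue of the number of the points
-/

set_option autoImplicit false
set_option linter.all false

namespace Pool.Agent.L0h11.CurveFamily

open Filter Topology NumberField IsDedekindDomain
open Pool.Agent.L0h11.NA
open Pool.Agent.R410.LW (FG)
open Pool.Agent.R410.BS (landau_all hom_le good_le cF)
open Pool.Agent.R410.NG (Wt IsWt sR sT avg all_models)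
open Pool.Agent.Y707.PR (HasResidue)
open Pool.Agent.H921R2.TatePole (nm)

section count

variable {A M : Type} [CommRing A] [IsDomain A] [Algebra.FiniteType ℤ A] [Field M] [CharZero M]
  [Algebra A M] [IsFractionRing A M] {k : Type} [Field k] [NumberField k] [Algebra (𝓞 k) A]

/-- the number of the points of an open subscheme, normalized -/
noncomputable def cnt (A : Type) [CommRing A] [Algebra (𝓞 k) A] (c : A) (m : ℕ)
    (v : HeightOneSpectrum (𝓞 k)) : ℝ :=
  ((Nat.card (𝓞 k ⧸ v.asIdeal) : ℝ) ^ m)⁻¹ *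
    Nat.card {φ : A →+* 𝓞 k ⧸ v.asIdeal // φ.comp (algebraMap (𝓞 k) A) =
      Ideal.Quotient.mk v.asIdeal ∧ φ c ≠ 0}

include M in
theorem cnt_residue {m : ℕ} (hm : Algebra.trdeg ℚ M = m) {c : A} (hc : c ≠ 0)
    (S : Finset (HeightOneSpectrum (𝓞 k))) : HasResidue S (cnt A c m) 1 1 := by
  classical
  obtain ⟨L, iL, nL, hL⟩ := landau_all (fg_of_ft A M) hm
  obtain ⟨C, N, hC, hN, h⟩ := hL A c hc
  obtain ⟨C', hC', h'⟩ := hom_le (R := A) (K := M) (IsFractionRing.injective A M) hm.le
  let w : Wt Empty := fun _ _ _ => 1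
  have hw : IsWt w (fun _ => 0) 1 :=
    { c0 := zero_le_one
      iso := fun _ _ _ _ _ _ => rfl
      bound := fun F _ _ p _ => by
        show |(1 : ℝ)| ≤ _
        rw [abs_one, one_mul]
        exact Real.one_le_sqrt.2 (by exact_mod_cast Nat.card_pos) }
  have hfin : ∀ (F : Type) [Field F] [Finite F], Finite (A →+* F) := fun F _ _ =>
    Pool.Agent.TH958.An.finite_hom F
  have hsR : ∀ (F : Type) [Field F] [Finite F] (ψ : 𝓞 k →+* F),
      sR w (algebraMap (𝓞 k) A) (fun x : Empty => x.elim) c F ψ =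
        Nat.card {φ : A →+* F // φ.comp (algebraMap (𝓞 k) A) = ψ ∧ φ c ≠ 0} := by
    intro F _ _ ψ
    have := hfin F
    letI := Fintype.ofFinite {φ : A →+* F // φ.comp (algebraMap (𝓞 k) A) = ψ ∧ φ c ≠ 0}
    unfold sR
    rw [finsum_eq_sum_of_fintype]
    show ∑ φ : {φ : A →+* F // φ.comp (algebraMap (𝓞 k) A) = ψ ∧ φ c ≠ 0}, (1 : ℝ) = _
    rw [Finset.sum_const, Finset.card_univ, nsmul_eq_mul, mul_one, Nat.card_eq_fintype_card]
  have hsT : ∀ (F : Type) [Field F] [Finite F],
      sT w (fun x : Empty => (x.elim : Polynomial A)) c F = Nat.card {φ : A →+* F // φ c ≠ 0} := by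
    intro F _ _
    have := hfin F
    letI := Fintype.ofFinite {φ : A →+* F // φ c ≠ 0}
    unfold sT
    rw [finsum_eq_sum_of_fintype]
    show ∑ φ : {φ : A →+* F // φ c ≠ 0}, (1 : ℝ) = _
    rw [Finset.sum_const, Finset.card_univ, nsmul_eq_mul, mul_one, Nat.card_eq_fintype_card]
  have h3 : ∀ (F : Type) [Field F], cF (fun _ : Unit => L) (fun _ => 1) F =
      (Nat.card (𝓞 L →+* F) : ℝ) := by
    intro F _
    unfold cF
    simp
  have hmain := all_models (k := k) (R := A) (B := A) (K := M) (J := Empty) hw (e := m) hm.le rfl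
    (g := fun x => x.elim) (g' := fun x => x.elim) (fun j => j.elim) (fun j => j.elim) (N := c)
    hc (N' := c) hc (κ := Unit) (fun _ => L) (fun _ => 1) (r := 1) (by simp)
    ⟨C', 1, hC', one_ne_zero, fun F _ _ _ ψ => by
      rw [hsR, abs_of_nonneg (Nat.cast_nonneg _)]
      refine le_trans ?_ (h' F)
      have := hfin F
      exact_mod_cast Nat.card_le_card_of_injective _ Subtype.val_injective⟩
    ⟨C, N, hC, hN, fun F _ _ hF => by
      rw [hsT, h3]
      exact h F hF⟩ S
  refine HasResidue_congr hmain (fun v => ?_) (by norm_num)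
  have hfv := Pool.Agent.H341R2.finite_v v
  unfold avg cnt
  rw [hsR]

end count

end Pool.Agent.L0h11.CurveFamily
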