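import Mathlib
import Pool.Agent.L0h11.N.Sg
import Pool.Agent.L0h11.N.Dg

/-!
# The residues of the averages
-/

set_option autoImplicit false
set_option linter.all false

namespace Pool.Agent.L0h11.CurveFamily

open Filter Topology NumberField IsDedekindDomain
open Pool.Agent.L0h11.NA
open Pool.Agent.TH958.An
open Pool.Agent.R410.BS (hom_le good_le)
open Pool.Agent.Y707.PR (HasResidue)
open Pool.Agent.H921R2.TatePole (nm two_le_nm)

section

variable {k : Type} [Field k] [NumberField k]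

lemma card_nm (v : HeightOneSpectrum (𝓞 k)) : (Nat.card (𝓞 k ⧸ v.asIdeal) : ℝ) = nm v := by
  unfold nm
  rw [Ideal.absNorm_apply, Submodule.cardQuot_apply]

lemma one_le_nm (v : HeightOneSpectrum (𝓞 k)) : (1 : ℝ) ≤ nm v := by
  have := two_le_nm v
  have h0 : 1 ≤ nm v := by omega
  exact_mod_cast h0

lemma quarter (v : HeightOneSpectrum (𝓞 k)) : (nm v : ℝ) ^ (1 / 4 : ℝ) = √√(nm v : ℝ) := by
  have h := one_le_nm v
  rw [Real.sqrt_eq_rpow, Real.sqrt_eq_rpow, ← Real.rpow_mul (by linarith)]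
  norm_num

end

section count

variable {A M : Type} [CommRing A] [IsDomain A] [hft : Algebra.FiniteType ℤ A] [Field M] [CharZero M]
  [Algebra A M] [IsFractionRing A M] {k : Type} [Field k] [NumberField k] [Algebra (𝓞 k) A]
  {σ : Type}

/-- the number of the points over which a polynomial does not vanish, normalized -/
noncomputable def cntP {A : Type} [CommRing A] [Algebra (𝓞 k) A] {σ : Type} (P₁ : MvPolynomial σ A) (m : ℕ)
    (v : HeightOneSpectrum (𝓞 k)) : ℝ :=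
  ((Nat.card (𝓞 k ⧸ v.asIdeal) : ℝ) ^ m)⁻¹ *
    Nat.card {φ : A →+* 𝓞 k ⧸ v.asIdeal // φ.comp (algebraMap (𝓞 k) A) =
      Ideal.Quotient.mk v.asIdeal ∧ MvPolynomial.map φ P₁ ≠ 0}

include M in
/-- **The number of the points.** -/
theorem cntP_residue {m : ℕ} (hm : Algebra.trdeg ℚ M = m) {N₁ : MvPolynomial σ A} (hN0 : N₁ ≠ 0)
    (S : Finset (HeightOneSpectrum (𝓞 k))) : HasResidue S (cntP N₁ m) 1 1 := by
  classical
  obtain ⟨e, he⟩ := MvPolynomial.ne_zero_iff.1 hN0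
  set c := N₁.coeff e with hc
  obtain ⟨C, N, hC, hN, h⟩ := good_le (R := A) (K := M) (IsFractionRing.injective A M) hm.le he
  have hev : ∀ᶠ v : HeightOneSpectrum (𝓞 k) in cofinite,
      |(cntP N₁ m v - cnt A c m v) * (nm v : ℝ) ^ (1 / 4 : ℝ)| ≤ C := by
    have hN' : ((N : ℕ) : 𝓞 k) ≠ 0 := by exact_mod_cast hN
    filter_upwards [Pool.Agent.Y707.PC.ae_notMem hN'] with v hv
    have hfv := Pool.Agent.H341R2.finite_v v
    letI : Field (𝓞 k ⧸ v.asIdeal) := Ideal.Quotient.field v.asIdeal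
    have hA : Finite (A →+* 𝓞 k ⧸ v.asIdeal) := Pool.Agent.TH958.An.finite_hom _
    have hNv : ((N : ℕ) : 𝓞 k ⧸ v.asIdeal) ≠ 0 := by
      intro h0
      apply hv
      rw [← Ideal.Quotient.eq_zero_iff_mem, map_natCast]
      exact h0
    have h2 := (h (𝓞 k ⧸ v.asIdeal) hNv).2
    letI := Fintype.ofFinite (A →+* 𝓞 k ⧸ v.asIdeal)
    let P : (A →+* 𝓞 k ⧸ v.asIdeal) → Prop := fun φ => φ.comp (algebraMap (𝓞 k) A) =
      Ideal.Quotient.mk v.asIdeal
    have e1 : cntP N₁ m v = ((nm v : ℝ) ^ m)⁻¹ *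
        ((Finset.univ.filter fun φ => P φ ∧ MvPolynomial.map φ N₁ ≠ 0).card : ℝ) := by
      unfold cntP
      rw [card_nm, Nat.card_eq_fintype_card, Fintype.card_subtype]
    have e2 : cnt A c m v = ((nm v : ℝ) ^ m)⁻¹ *
        ((Finset.univ.filter fun φ => P φ ∧ φ c ≠ 0).card : ℝ) := by
      unfold cnt
      rw [card_nm, Nat.card_eq_fintype_card, Fintype.card_subtype]
    have h3 : (Finset.univ.filter fun φ : A →+* 𝓞 k ⧸ v.asIdeal => P φ ∧ φ c ≠ 0).card ≤
        (Finset.univ.filter fun φ : A →+* 𝓞 k ⧸ v.asIdeal =>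
          P φ ∧ MvPolynomial.map φ N₁ ≠ 0).card := by
      refine Finset.card_le_card fun φ hφ => ?_
      rw [Finset.mem_filter] at hφ ⊢
      refine ⟨hφ.1, hφ.2.1, fun h0 => hφ.2.2 ?_⟩
      have h4 := congrArg (MvPolynomial.coeff e) h0
      rwa [MvPolynomial.coeff_map, MvPolynomial.coeff_zero] at h4
    have h4 : (Finset.univ.filter fun φ : A →+* 𝓞 k ⧸ v.asIdeal =>
          P φ ∧ MvPolynomial.map φ N₁ ≠ 0).card ≤
        (Finset.univ.filter fun φ : A →+* 𝓞 k ⧸ v.asIdeal => P φ ∧ φ c ≠ 0).card +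
        (Finset.univ.filter fun φ : A →+* 𝓞 k ⧸ v.asIdeal => φ c = 0).card := by
      refine (Finset.card_le_card fun φ hφ => ?_).trans (Finset.card_union_le _ _)
      rw [Finset.mem_union, Finset.mem_filter, Finset.mem_filter]
      rw [Finset.mem_filter] at hφ
      by_cases h5 : φ c = 0
      · exact Or.inr ⟨Finset.mem_univ _, h5⟩
      · exact Or.inl ⟨Finset.mem_univ _, hφ.2.1, h5⟩
    rw [Nat.card_eq_fintype_card, Fintype.card_subtype, card_nm] at h2
    have h3' := (Nat.cast_le (α := ℝ)).2 h3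
    have h4' := (Nat.cast_le (α := ℝ)).2 h4
    rw [Nat.cast_add] at h4'
    have hq1 := one_le_nm v
    rw [e1, e2]
    set q : ℝ := (nm v : ℝ) with hq
    have hqm : 0 < q ^ m := by positivity
    set x : ℝ := ((Finset.univ.filter fun φ : A →+* 𝓞 k ⧸ v.asIdeal =>
      P φ ∧ MvPolynomial.map φ N₁ ≠ 0).card : ℝ) with hx
    set y : ℝ := ((Finset.univ.filter fun φ : A →+* 𝓞 k ⧸ v.asIdeal => P φ ∧ φ c ≠ 0).card : ℝ) with hy
    set z : ℝ := ((Finset.univ.filter fun φ : A →+* 𝓞 k ⧸ v.asIdeal => φ c = 0).card : ℝ) with hz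
    have hz0 : 0 ≤ z := Nat.cast_nonneg _
    have h6 : q ^ (1 / 4 : ℝ) ≤ q := by
      calc q ^ (1 / 4 : ℝ) ≤ q ^ (1 : ℝ) := Real.rpow_le_rpow_of_exponent_le hq1 (by norm_num)
        _ = q := Real.rpow_one q
    have h7 : 0 ≤ q ^ (1 / 4 : ℝ) := by positivity
    rw [← mul_sub, abs_mul, abs_mul, abs_of_nonneg h7, abs_of_nonneg (sub_nonneg.2 h3'),
      abs_of_pos (inv_pos.2 hqm), mul_assoc, inv_mul_le_iff₀ hqm]
    calc (x - y) * q ^ (1 / 4 : ℝ) ≤ z * q := mul_le_mul (by linarith) h6 h7 hz0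
      _ ≤ C * q ^ m := h2
      _ = _ := mul_comm _ _
  obtain ⟨K, hK⟩ := Pool.Agent.Y707.DK.bound_fin hev
  have hK' : ∀ v : HeightOneSpectrum (𝓞 k),
      |cntP N₁ m v - cnt A c m v| * (nm v : ℝ) ^ (1 / 4 : ℝ) ≤ K := by
    intro v
    have h1 := hK v
    have h7 : 0 ≤ (nm v : ℝ) ^ (1 / 4 : ℝ) := by positivity
    rwa [abs_mul, abs_of_nonneg h7] at h1
  exact (HasResidue_near hK').2 (cnt_residue (M := M) hm he S)

end count

variable {A M : Type} [CommRing A] [IsDomain A] [hft : Algebra.FiniteType ℤ A] [Field M] [CharZero M]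
  [Algebra A M] [IsFractionRing A M] {k : Type} [Field k] [NumberField k] [Algebra (𝓞 k) A]
  (T : CurveFamily A) {m : ℕ} (hm : Algebra.trdeg ℚ M = m) {N₁ : T.B} (hN : T.IsModel N₁)

include M hm hN

/-- **The average and the main term.** -/
theorem average_near : ∃ K : ℝ, ∀ v : HeightOneSpectrum (𝓞 k),
    |T.average m N₁ v - mainAverage m N₁ v| * (nm v : ℝ) ^ (1 / 4 : ℝ) ≤ K := by
  classical
  obtain ⟨C, hC, h⟩ := hom_le (R := A) (K := M) (IsFractionRing.injective A M) hm.le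
  obtain ⟨g, hg⟩ := hN.2
  refine ⟨T.KP g N₁.totalDegree * C, fun v => ?_⟩
  have hfv := Pool.Agent.H341R2.finite_v v
  letI := Fintype.ofFinite (𝓞 k ⧸ v.asIdeal)
  letI : Field (𝓞 k ⧸ v.asIdeal) := Ideal.Quotient.field v.asIdeal
  have hA : Finite (A →+* 𝓞 k ⧸ v.asIdeal) := Pool.Agent.TH958.An.finite_hom _
  have h1 := sum_near T hA hN (g := g) (fun Φ hΦ => (hg (𝓞 k ⧸ v.asIdeal) Φ hΦ).2)
    (fun φ => φ.comp (algebraMap (𝓞 k) A) = Ideal.Quotient.mk v.asIdeal)
  have h2 := h (𝓞 k ⧸ v.asIdeal)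
  have hKP := T.KP_nonneg g N₁.totalDegree (Nat.cast_nonneg _) (Nat.cast_nonneg _)
  rw [mainAverage_eq m N₁ v hA, quarter]
  unfold average
  rw [← Nat.card_eq_fintype_card] at h1
  rw [card_nm] at h1 h2 ⊢
  set q : ℝ := (nm v : ℝ) with hq
  have hq1 : 1 ≤ q := one_le_nm v
  have hqm : 0 < q ^ m := by positivity
  have e : (q ^ (m + T.N + T.r))⁻¹ * ∑ᶠ b : T.BasePoint N₁ v, T.traceOne b.1.1 -
      (q ^ m)⁻¹ * ∑ᶠ φ : {φ : A →+* 𝓞 k ⧸ v.asIdeal // φ.comp (algebraMap (𝓞 k) A) =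
      Ideal.Quotient.mk v.asIdeal ∧ MvPolynomial.map φ N₁ ≠ 0}, T.mt φ.1 =
      ((∑ᶠ b : T.BasePoint N₁ v, T.traceOne b.1.1) / q ^ (T.N + T.r) -
      ∑ᶠ φ : {φ : A →+* 𝓞 k ⧸ v.asIdeal // φ.comp (algebraMap (𝓞 k) A) =
      Ideal.Quotient.mk v.asIdeal ∧ MvPolynomial.map φ N₁ ≠ 0}, T.mt φ.1) / q ^ m := by
    rw [add_assoc, pow_add]
    field_simp
  rw [e, abs_div, abs_of_pos hqm, div_mul_eq_mul_div, div_le_iff₀ hqm]
  calc _ ≤ T.KP g N₁.totalDegree * Nat.card (A →+* 𝓞 k ⧸ v.asIdeal) := h1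
    _ ≤ T.KP g N₁.totalDegree * (C * q ^ m) := mul_le_mul_of_nonneg_left h2 hKP
    _ = _ := by ring

omit hN in
/-- **The number of the points.** -/
theorem sigma_residue (hN0 : N₁ ≠ 0) (S : Finset (HeightOneSpectrum (𝓞 k))) :
    HasResidue S (fun v => T.baseAverage m N₁ v fun _ => 1) 1 1 := by
  classical
  refine HasResidue_congr (cntP_residue (M := M) hm hN0 S) (fun v => ?_) rfl
  have hfv := Pool.Agent.H341R2.finite_v v
  letI : Field (𝓞 k ⧸ v.asIdeal) := Ideal.Quotient.field v.asIdeal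
  have hA : Finite (A →+* 𝓞 k ⧸ v.asIdeal) := Pool.Agent.TH958.An.finite_hom _
  letI := Fintype.ofFinite {φ : A →+* 𝓞 k ⧸ v.asIdeal // φ.comp (algebraMap (𝓞 k) A) =
      Ideal.Quotient.mk v.asIdeal ∧ MvPolynomial.map φ N₁ ≠ 0}
  unfold baseAverage cntP
  rw [finsum_eq_sum_of_fintype, Finset.sum_const, Finset.card_univ, nsmul_eq_mul, mul_one]
  congr 2
  exact Nat.card_eq_fintype_card

/-- **The residues.** -/
theorem residue_iff (S : Finset (HeightOneSpectrum (𝓞 k))) (b : HeightOneSpectrum (𝓞 k) → ℝ) (ρ : ℝ) :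
    HasResidue S (fun v => b v - T.average m N₁ v) 1 ρ ↔
      HasResidue S (fun v => b v - T.averageOne m N₁ v + T.averageTwo m N₁ v +
        T.r * T.averageSquare m N₁ v) 1 (ρ + 1 - T.r) := by
  obtain ⟨K, hK⟩ := average_near (M := M) (k := k) T hm hN
  have h1 : HasResidue S (fun v => b v - T.average m N₁ v) 1 ρ ↔
      HasResidue S (fun v => b v - mainAverage m N₁ v) 1 ρ := by
    refine HasResidue_near (K := K) fun v => ?_
    have e : (b v - T.average m N₁ v) - (b v - mainAverage m N₁ v) =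
        -(T.average m N₁ v - mainAverage m N₁ v) := by ring
    rw [e, abs_neg]
    exact hK v
  have hσ := sigma_residue (M := M) T hm hN.1 S
  rw [h1]
  constructor
  · intro h
    refine HasResidue_congr (HasResidue_add h (HasResidue_const_mul (1 - T.r) hσ)) (fun v => ?_) (by ring)
    unfold mainAverage
    ring
  · intro h
    refine HasResidue_congr (HasResidue_add h (HasResidue_const_mul (T.r - 1) hσ)) (fun v => ?_) (by ring)
    unfold mainAverage
    ring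

/-- **The residue for algebraic cohomology.** -/
theorem residue_alg {ρ : ℝ} (hT : T.Z.IsAlgebraic m ρ) (S : Finset (HeightOneSpectrum (𝓞 k))) :
    HasResidue S (fun v => -T.average m N₁ v) 1 (ρ - 1 + T.r) := by
  classical
  obtain ⟨hb1, ι, _, A', M', _, _, _, _, _, _, _, a, hM', ha, htr⟩ := hT
  have hfin : ∀ v : HeightOneSpectrum (𝓞 k), Finite (𝓞 k ⧸ v.asIdeal) :=
    Pool.Agent.H341R2.finite_v
  -- the structures over the ring of integers
  let iA : ∀ i, Algebra (𝓞 k) (A' i) := fun i =>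
    ((algebraMap A (A' i)).comp (algebraMap (𝓞 k) A)).toAlgebra
  have h0 := residue_iff (M := M) T hm hN S (fun _ => 0) (ρ - 1 + T.r)
  have hone : ∀ v : HeightOneSpectrum (𝓞 k), ∀ φ : A →+* 𝓞 k ⧸ v.asIdeal, MvPolynomial.map φ N₁ ≠ 0 →
      T.Z.tr 1 (RingHom.ker φ) (Nat.card (𝓞 k ⧸ v.asIdeal)) = 0 := by
    intro v φ hφ
    have := hfin v
    letI := Fintype.ofFinite (𝓞 k ⧸ v.asIdeal)
    letI : Field (𝓞 k ⧸ v.asIdeal) := Ideal.Quotient.field v.asIdeal
    have hg := T.good_of_model hN φ hφ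
    have h1 := FrobVariety.norm_tt_le (X := T.Z) hg 1
    rw [hb1, Nat.cast_zero, zero_mul] at h1
    have h2 : T.Z.tt φ 1 = 0 := norm_le_zero_iff.1 h1
    unfold FrobVariety.tt at h2
    rw [← Nat.card_eq_fintype_card] at h2
    exact h2
  have e1 : ∀ v : HeightOneSpectrum (𝓞 k), T.averageOne m N₁ v = 0 := by
    intro v
    unfold averageOne baseAverage
    rw [finsum_eq_zero_of_forall_eq_zero, mul_zero]
    intro φ
    show (T.Z.tr 1 (RingHom.ker φ.1) (Nat.card (𝓞 k ⧸ v.asIdeal))).re = 0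
    rw [hone v φ.1 φ.2.2, Complex.zero_re]
  have e3 : ∀ v : HeightOneSpectrum (𝓞 k), T.averageSquare m N₁ v = 0 := by
    intro v
    unfold averageSquare baseAverage
    rw [finsum_eq_zero_of_forall_eq_zero, mul_zero]
    intro φ
    show (T.Z.tr 1 (RingHom.ker φ.1) (Nat.card (𝓞 k ⧸ v.asIdeal))).re ^ 2 /
      (Nat.card (𝓞 k ⧸ v.asIdeal) : ℝ) = 0
    rw [hone v φ.1 φ.2.2, Complex.zero_re, zero_pow two_ne_zero, zero_div]
  have e2 : ∀ v : HeightOneSpectrum (𝓞 k), T.averageTwo m N₁ v =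
      ∑ i, (a i : ℝ) * cntP (MvPolynomial.map (algebraMap A (A' i)) N₁) m v := by
    intro v
    have := hfin v
    letI : Field (𝓞 k ⧸ v.asIdeal) := Ideal.Quotient.field v.asIdeal
    have hA : Finite (A →+* 𝓞 k ⧸ v.asIdeal) := Pool.Agent.TH958.An.finite_hom _
    have hA' : ∀ i, Finite (A' i →+* 𝓞 k ⧸ v.asIdeal) := fun i => Pool.Agent.TH958.An.finite_hom _
    letI := Fintype.ofFinite {φ : A →+* 𝓞 k ⧸ v.asIdeal // φ.comp (algebraMap (𝓞 k) A) =
      Ideal.Quotient.mk v.asIdeal ∧ MvPolynomial.map φ N₁ ≠ 0}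
    unfold averageTwo baseAverage
    rw [finsum_eq_sum_of_fintype]
    have h1 : ∀ φ : {φ : A →+* 𝓞 k ⧸ v.asIdeal // φ.comp (algebraMap (𝓞 k) A) =
        Ideal.Quotient.mk v.asIdeal ∧ MvPolynomial.map φ N₁ ≠ 0},
        (T.Z.tr 2 (RingHom.ker φ.1) (Nat.card (𝓞 k ⧸ v.asIdeal))).re / Nat.card (𝓞 k ⧸ v.asIdeal) =
        ∑ i, (a i : ℝ) * Nat.card {ψ : A' i →+* 𝓞 k ⧸ v.asIdeal //
          ψ.comp (algebraMap A (A' i)) = φ.1} := fun φ =>
      htr _ φ.1 (T.good_of_model hN φ.1 φ.2.2)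
    rw [Finset.sum_congr rfl fun φ _ => h1 φ, Finset.sum_comm, Finset.mul_sum]
    refine Finset.sum_congr rfl fun i _ => ?_
    rw [← Finset.mul_sum, mul_left_comm]
    unfold cntP
    congr 2
    rw [← Nat.cast_sum]
    congr 1
    let f : {ψ : A' i →+* 𝓞 k ⧸ v.asIdeal // ψ.comp (algebraMap (𝓞 k) (A' i)) =
        Ideal.Quotient.mk v.asIdeal ∧
        MvPolynomial.map ψ (MvPolynomial.map (algebraMap A (A' i)) N₁) ≠ 0} →
        {φ : A →+* 𝓞 k ⧸ v.asIdeal // φ.comp (algebraMap (𝓞 k) A) =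
          Ideal.Quotient.mk v.asIdeal ∧ MvPolynomial.map φ N₁ ≠ 0} := fun ψ =>
      ⟨ψ.1.comp (algebraMap A (A' i)), ψ.2.1, by
          have h2 := ψ.2.2
          rwa [MvPolynomial.map_map] at h2⟩
    rw [Nat.card_congr (Equiv.sigmaFiberEquiv f).symm, Nat.card_sigma]
    refine Finset.sum_congr rfl fun φ _ => ?_
    refine Nat.card_congr
      { toFun := fun ψ => ⟨⟨ψ.1, ?_, ?_⟩, Subtype.ext ψ.2⟩
        invFun := fun x => ⟨x.1.1, congrArg Subtype.val x.2⟩
        left_inv := fun _ => rfl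
        right_inv := fun _ => rfl }
    · have h2 := φ.2.1
      rw [← ψ.2] at h2
      exact h2
    · rw [MvPolynomial.map_map, ψ.2]
      exact φ.2.2
  have hsum : HasResidue S (fun v => ∑ i, (a i : ℝ) * cntP (MvPolynomial.map (algebraMap A (A' i)) N₁) m v)
      1 ρ := by
    rw [← ha]
    refine HasResidue_sum fun i => ?_
    have h1 : MvPolynomial.map (algebraMap A (A' i)) N₁ ≠ 0 := by
      intro h2
      exact hN.1 (MvPolynomial.map_injective _ (hM' i).2.2 (by rw [h2, map_zero]))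
    have hfr := (hM' i).1
    have h2 := HasResidue_const_mul (a i : ℝ) (cntP_residue (A := A' i) (M := M' i) (k := k)
      (hM' i).2.1 h1 S)
    rwa [mul_one] at h2
  have h1 : HasResidue S (fun v => 0 - T.averageOne m N₁ v + T.averageTwo m N₁ v +
      T.r * T.averageSquare m N₁ v) 1 (ρ - 1 + T.r + 1 - T.r) := by
    refine HasResidue_congr hsum (fun v => ?_) (by ring)
    rw [e1, e2, e3]
    ring
  exact HasResidue_congr (h0.2 h1) (fun v => by ring) rfl

end Pool.Agent.L0h11.CurveFamily
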